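import Pool.Agent.Helper59.Kiss.Round

open Filter MeasureTheory InnerProductGeometry ProbabilityTheory
open scoped RealInnerProductSpace Topology

namespace Pool.Agent.Helper59.Kiss

lemma HasPermCode.mono {d k : ℕ} {φ N N' : ℝ} (h : HasPermCode d k φ N) (hN : N' ≤ N) :
    HasPermCode d k φ N' := by
  obtain ⟨v, S, h1, h2, h3, h4⟩ := h
  exact ⟨v, S, h1, h2, h3, hN.trans h4⟩

lemma hasPermCode_one {d k : ℕ} (hd : 1 ≤ d) (hk : 1 ≤ k) (φ : ℝ) : HasPermCode d k φ 1 := by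
  refine ⟨fun _ => 1, {1}, ?_, ?_, ?_, by simp⟩
  · intro h
    have := congrFun h ⟨0, hd⟩
    simp at this
  · intro i
    simp only [abs_one]
    exact_mod_cast hk
  · intro σ hσ τ hτ hne
    rw [Finset.mem_singleton] at hσ hτ
    exact absurd (hσ.trans hτ.symm) hne

/-- the truncation level -/
noncomputable def Tk (k : ℕ) : ℝ := 2 + 2 * Real.sqrt (1 + Real.log (4 * k ^ 2))

lemma log_nonneg_aux {k : ℕ} (hk : 1 ≤ k) : 0 ≤ Real.log (4 * k ^ 2) := by
  apply Real.log_nonneg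
  have : (1 : ℝ) ≤ k := by exact_mod_cast hk
  nlinarith

lemma two_le_Tk (k : ℕ) : 2 ≤ Tk k := by
  unfold Tk
  have := Real.sqrt_nonneg (1 + Real.log (4 * (k : ℝ) ^ 2))
  linarith

lemma beta_Tk {k : ℕ} (hk : 1 ≤ k) : beta (Tk k) = 1 / k ^ 2 := by
  have hk' : (0 : ℝ) < k := by exact_mod_cast hk
  have h0 := log_nonneg_aux hk
  unfold beta Tk
  set q := Real.sqrt (1 + Real.log (4 * (k : ℝ) ^ 2)) with hq
  have hq2 : q ^ 2 = 1 + Real.log (4 * (k : ℝ) ^ 2) := Real.sq_sqrt (by linarith)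
  have e1 : 2 + 2 * q - (2 + 2 * q) ^ 2 / 4 = - Real.log (4 * (k : ℝ) ^ 2) := by
    have : 2 + 2 * q - (2 + 2 * q) ^ 2 / 4 = 1 - q ^ 2 := by ring
    rw [this, hq2]
    ring
  rw [e1, Real.exp_neg, Real.exp_log (by positivity)]
  field_simp

lemma Tk_le {k : ℕ} (hk : 1 ≤ k) : Tk k ≤ 8 * Real.sqrt (Real.log (k + 1)) := by
  have hk' : (1 : ℝ) ≤ k := by exact_mod_cast hk
  have h0 := log_nonneg_aux hk
  set L := Real.log ((k : ℝ) + 1) with hL
  have hL1 : 0.69 ≤ L := by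
    have h1 : Real.log 2 ≤ L := Real.log_le_log (by norm_num) (by linarith)
    have := Real.log_two_gt_d9
    linarith
  set r := Real.sqrt L with hr
  have hr2 : r ^ 2 = L := Real.sq_sqrt (by linarith)
  have hr0 : 0 ≤ r := Real.sqrt_nonneg L
  have hr1 : 0.83 ≤ r := by
    apply Real.le_sqrt_of_sq_le
    norm_num
    linarith
  have h1 : Real.log (4 * (k : ℝ) ^ 2) ≤ 1.3863 + 2 * L := by
    rw [Real.log_mul (by norm_num) (by positivity), Real.log_pow]
    have h2 : Real.log 4 = 2 * Real.log 2 := by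
      rw [show (4 : ℝ) = 2 ^ 2 by norm_num, Real.log_pow]
      norm_num
    have h3 := Real.log_two_lt_d9
    have h4 : Real.log (k : ℝ) ≤ L := Real.log_le_log (by linarith) (by linarith)
    push_cast
    rw [h2]
    linarith
  have h2 : Real.sqrt (1 + Real.log (4 * (k : ℝ) ^ 2)) ≤ 4 * r - 1 := by
    rw [Real.sqrt_le_left (by linarith)]
    nlinarith
  unfold Tk
  linarith

lemma exp_le_one_sub {y : ℝ} (h0 : 0 ≤ y) (h1 : y ≤ 1 / 2) : Real.exp (-(2 * y)) ≤ 1 - y := by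
  rw [Real.exp_neg, inv_le_comm₀ (Real.exp_pos _) (by linarith)]
  have h2 := Real.add_one_le_exp (2 * y)
  refine le_trans ?_ h2
  rw [inv_le_iff_one_le_mul₀ (by linarith)]
  nlinarith

/-- Alphabet reduction with an explicit rate. -/
theorem alphabet {φ : ℝ} (h0 : 0 < φ) (hφ : φ < Real.pi / 2) :
    ∃ C : ℝ, 0 < C ∧ ∀ k : ℕ, 1 ≤ k → ∃ d₀ : ℕ, ∀ d ≥ d₀,
      HasPermCode d k φ
        ((2 : ℝ) ^ (-(C * Real.sqrt (Real.log (k + 1)) / k * d)) * maxCode d φ) := by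
  have hπ : φ ≤ Real.pi := by linarith [Real.pi_pos]
  set s := Real.cos φ with hs
  have hs0 : 0 < s := Real.cos_pos_of_mem_Ioo ⟨by linarith, hφ⟩
  have hs1 : s < 1 := cos_lt_one h0 hπ
  have hs2 : 1 < 1 / s := (one_lt_div hs0).2 hs1
  have hss : 0 < 1 - s ^ 2 := by nlinarith
  set A := (1 + 1 / s) * (3 / s - 1) / 4 with hA
  have h3s : 3 / s = 3 * (1 / s) := by ring
  have hA0 : 0 < A := by
    rw [hA, h3s]
    have h1 : 0 < 1 + 1 / s := by linarith
    have h2 : 0 < 3 * (1 / s) - 1 := by linarith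
    positivity
  set x₀ := min (min ((1 - s ^ 2) / (20 * A)) (s / 5)) (1 / 2) with hx₀
  have hx₀0 : 0 < x₀ := by
    rw [hx₀]
    refine lt_min (lt_min ?_ ?_) ?_ <;> positivity
  set C₂ := 10 * A / (1 - s ^ 2) with hC₂
  have hC₂0 : 0 < C₂ := by positivity
  have hB := rateBound_nonneg φ
  set C' := 2 * C₂ + 1 + rateBound φ / x₀ with hC'
  have hC'0 : 0 < C' := by positivity
  refine ⟨8 * C', by positivity, fun k hk => ?_⟩
  have hk' : (0 : ℝ) < k := by exact_mod_cast hk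
  have hk1 : (1 : ℝ) ≤ k := by exact_mod_cast hk
  set x := 8 * Real.sqrt (Real.log ((k : ℝ) + 1)) / k with hx
  have hlog : 0 < Real.log ((k : ℝ) + 1) := Real.log_pos (by linarith)
  have hx0 : 0 < x := by
    have := Real.sqrt_pos.2 hlog
    positivity
  have hexp : ∀ d : ℕ, 8 * C' * Real.sqrt (Real.log ((k : ℝ) + 1)) / k * d = C' * x * d := by
    intro d
    rw [hx]
    ring
  simp only [hexp]
  rcases lt_or_ge x₀ x with hxx | hxx
  · -- trivial case
    refine ⟨1, fun d hd => (hasPermCode_one hd hk φ).mono ?_⟩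
    have h1 := maxCode_le (d := d) h0 hπ
    have hpos : (0 : ℝ) < 1 + 2 / Real.sqrt (2 - 2 * Real.cos φ) := by positivity
    have h2 : (1 + 2 / Real.sqrt (2 - 2 * Real.cos φ)) ^ d = (2 : ℝ) ^ (rateBound φ * d) := by
      unfold rateBound
      rw [Real.rpow_mul two_pos.le, Real.rpow_logb two_pos (by norm_num) hpos, Real.rpow_natCast]
    rw [h2] at h1
    calc (2 : ℝ) ^ (-(C' * x * d)) * maxCode d φ
        ≤ (2 : ℝ) ^ (-(C' * x * d)) * (2 : ℝ) ^ (rateBound φ * d) :=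
          mul_le_mul_of_nonneg_left h1 (by positivity)
      _ = (2 : ℝ) ^ (-(C' * x * d) + rateBound φ * d) := by rw [Real.rpow_add two_pos]
      _ ≤ (2 : ℝ) ^ (0 : ℝ) := by
          apply Real.rpow_le_rpow_of_exponent_le one_le_two
          have h3 : rateBound φ ≤ C' * x := by
            have h4 : rateBound φ / x₀ ≤ C' := by rw [hC']; linarith
            have h5 : rateBound φ ≤ C' * x₀ := by
              rwa [div_le_iff₀ hx₀0] at h4
            exact h5.trans (mul_le_mul_of_nonneg_left hxx.le hC'0.le)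
          have h6 : (0 : ℝ) ≤ d := Nat.cast_nonneg d
          nlinarith
      _ = 1 := Real.rpow_zero 2
  · -- main case
    set ν := Tk k / k with hν
    have hTk := two_le_Tk k
    have hν0 : 0 < ν := by positivity
    have hνx : ν ≤ x := by
      rw [hν, hx]
      exact div_le_div_of_nonneg_right (Tk_le hk) hk'.le
    have hνx₀ : ν ≤ x₀ := hνx.trans hxx
    have hν1 : ν ≤ (1 - s ^ 2) / (20 * A) := hνx₀.trans ((min_le_left _ _).trans (min_le_left _ _))
    have hν2 : ν ≤ s / 5 := hνx₀.trans ((min_le_left _ _).trans (min_le_right _ _))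
    have hν3 : ν ≤ 1 / 2 := hνx₀.trans (min_le_right _ _)
    have hνsq : Tk k ^ 2 / (4 * k ^ 2) + 2 * beta (Tk k) ≤ ν ^ 2 := by
      rw [beta_Tk hk, hν, div_pow]
      have : Tk k ^ 2 / (4 * (k : ℝ) ^ 2) + 2 * (1 / (k : ℝ) ^ 2) =
          (Tk k ^ 2 / 4 + 2) / (k : ℝ) ^ 2 := by field_simp
      rw [this]
      apply div_le_div_of_nonneg_right _ (by positivity)
      nlinarith
    set κ := 5 * ν with hκ
    set t := Real.sqrt (10 * ν / (1 - s ^ 2)) with ht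
    have ht2 : t ^ 2 = 10 * ν / (1 - s ^ 2) := Real.sq_sqrt (by positivity)
    have ht0 : 0 < t := Real.sqrt_pos.2 (by positivity)
    have hκt : 2 * κ ≤ (1 - s ^ 2) * t ^ 2 := by
      rw [ht2, hκ]
      apply le_of_eq
      field_simp
      norm_num
    set y := A * t ^ 2 with hy
    have hy0 : 0 < y := by positivity
    have hy1 : y ≤ 1 / 2 := by
      rw [hy, ht2]
      rw [le_div_iff₀ (by positivity)] at hν1
      rw [mul_div_assoc', div_le_iff₀ hss]
      linarith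
    have hyx : y ≤ C₂ * x := by
      rw [hy, ht2, hC₂]
      have : A * (10 * ν / (1 - s ^ 2)) = 10 * A / (1 - s ^ 2) * ν := by ring
      rw [this]
      exact mul_le_mul_of_nonneg_left hνx (by positivity)
    set ρ := Real.sqrt (1 - y) with hρ
    have hρ2 : ρ ^ 2 = 1 - y := Real.sq_sqrt (by linarith)
    have hρ0 : 0 < ρ := Real.sqrt_pos.2 (by linarith)
    set δ := (1 / s - 1) * t / 2 with hδ
    have hδ0 : 0 < δ := by
      have : 0 < 1 / s - 1 := by linarith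
      positivity
    have hδy : δ ^ 2 < y := by
      rw [hδ, hy, hA, h3s]
      have h1 : (1 / s - 1) ^ 2 < (1 + 1 / s) * (3 * (1 / s) - 1) := by nlinarith
      have h2 : 0 < t ^ 2 := by positivity
      nlinarith
    have hδρ : δ < ρ := by
      apply lt_of_pow_lt_pow_left₀ 2 hρ0.le
      rw [hρ2]
      linarith
    have hle : ρ ^ 2 + 2 * ((1 + 1 / s) * t / 2) * ((1 / s - 1) * t / 2) +
        ((1 + 1 / s) * t / 2) ^ 2 ≤ 1 := by
      rw [hρ2, hy, hA, h3s]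
      apply le_of_eq
      ring
    have hρδ0 : 0 < ρ ^ 2 - δ ^ 2 := by rw [hρ2]; linarith
    set r := Real.sqrt (ρ ^ 2 - δ ^ 2) with hr
    have hr0 : 0 < r := Real.sqrt_pos.2 hρδ0
    have hrρ : r < ρ := by
      apply lt_of_pow_lt_pow_left₀ 2 hρ0.le
      rw [hr, Real.sq_sqrt hρδ0.le]
      have : 0 < δ ^ 2 := by positivity
      linarith
    have ev1 : ∀ᶠ d : ℕ in atTop, (r / ρ) ^ d < 1 / 4 :=
      (tendsto_pow_atTop_nhds_zero_of_lt_one (by positivity)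
        ((div_lt_one hρ0).2 hrρ)).eventually (gt_mem_nhds (by norm_num))
    have h2x : (1 : ℝ) < 2 ^ x := Real.one_lt_rpow one_lt_two hx0
    have ev2 : ∀ᶠ d : ℕ in atTop, (((d + 1 : ℕ) : ℝ) ^ (2 * k + 1)) / ((2 : ℝ) ^ x) ^ (d + 1) <
        1 / (4 * (2 : ℝ) ^ x) := by
      have := (tendsto_pow_const_div_const_pow_of_one_lt (2 * k + 1) h2x).comp
        (tendsto_add_atTop_nat 1)
      exact this.eventually (gt_mem_nhds (by positivity))
    obtain ⟨d₀, hd₀⟩ := eventually_atTop.1 (ev1.and (ev2.and (eventually_ge_atTop 1)))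
    refine ⟨d₀, fun D hD => ?_⟩
    obtain ⟨hD1, hD2, hD3⟩ := hd₀ D hD
    obtain ⟨d, rfl⟩ := Nat.exists_eq_add_of_le' hD3
    obtain ⟨Cd, hCd, hcard⟩ := exists_maxCode (d + 1) h0 hπ
    have hbig : 4 * r ^ (d + 1) ≤ ρ ^ (d + 1) := by
      rw [div_pow, div_lt_iff₀ (by positivity)] at hD1
      linarith
    obtain ⟨J, F, hF, hJ⟩ := gap (κ := κ) hs0 hs1 ht0 (by positivity) hκt (by
      rw [hκ]; linarith) hρ0 hδρ hle hbig (hCd.fam h0 hπ)
    obtain ⟨N, hN, hJN⟩ := hasPermCode_of_fam (k := k) hD3 hk h0 hπ hs0.le (T := Tk k) (ν := ν)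
      hTk hνsq hν0.le (by linarith) (by
        change s - κ + 2 * ν + ν ^ 2 ≤ s * (1 - ν) ^ 2
        rw [hκ]
        nlinarith) hF
    refine hN.mono ?_
    rw [Fintype.card_coe] at hJ hJN
    rw [hcard] at hJ
    -- numerics
    set P : ℝ := ((d + 1 + 1 : ℕ) : ℝ) ^ (2 * k + 1) with hP
    have hP0 : 0 < P := by positivity
    have h1 : (maxCode (d + 1) φ : ℝ) * ρ ^ (d + 1) ≤ 4 * P * N := by linarith
    have h2 : 4 * P ≤ (2 : ℝ) ^ (x * ((d + 1 : ℕ) : ℝ)) := by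
      rw [div_lt_div_iff₀ (by positivity) (by positivity)] at hD2
      have h3 : ((2 : ℝ) ^ x) ^ (d + 1 + 1) = (2 : ℝ) ^ (x * ((d + 1 : ℕ) : ℝ)) * 2 ^ x := by
        rw [pow_succ, ← Real.rpow_natCast ((2 : ℝ) ^ x) (d + 1), ← Real.rpow_mul two_pos.le]
      rw [h3] at hD2
      have h4 : (4 * P) * (2 : ℝ) ^ x ≤ (2 : ℝ) ^ (x * ((d + 1 : ℕ) : ℝ)) * 2 ^ x := by
        linarith
      exact le_of_mul_le_mul_right h4 (by positivity)
    have h3 : (2 : ℝ) ^ (-(2 * y * ((d + 1 : ℕ) : ℝ))) ≤ ρ ^ (d + 1) := by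
      have h4 : Real.exp (-(2 * y)) ≤ ρ ^ 2 := by
        rw [hρ2]
        exact exp_le_one_sub hy0.le hy1
      have h5 : Real.exp (-y) ≤ ρ := by
        apply le_of_sq_le_sq _ hρ0.le
        rw [← Real.exp_nat_mul]
        push_cast
        have : (2 : ℝ) * -y = -(2 * y) := by ring
        rw [this]
        exact h4
      have h6 : (2 : ℝ) ^ (-(2 * y)) ≤ Real.exp (-y) := by
        rw [Real.rpow_def_of_pos two_pos]
        apply Real.exp_le_exp.2
        have := Real.log_two_gt_d9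
        nlinarith
      have h7 : (2 : ℝ) ^ (-(2 * y * ((d + 1 : ℕ) : ℝ))) = ((2 : ℝ) ^ (-(2 * y))) ^ (d + 1) := by
        rw [← Real.rpow_natCast, ← Real.rpow_mul two_pos.le]
        congr 1
        ring
      rw [h7]
      exact pow_le_pow_left₀ (by positivity) (h6.trans h5) _
    have hN0 : 0 ≤ N := by
      have h4 : 0 ≤ 4 * P * N := le_trans (by positivity) h1
      by_contra hneg
      push Not at hneg
      have : 4 * P * N < 0 := mul_neg_of_pos_of_neg (by positivity) hneg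
      linarith
    have h4 : (maxCode (d + 1) φ : ℝ) * (2 : ℝ) ^ (-(2 * y * ((d + 1 : ℕ) : ℝ))) ≤
        (2 : ℝ) ^ (x * ((d + 1 : ℕ) : ℝ)) * N := by
      calc (maxCode (d + 1) φ : ℝ) * (2 : ℝ) ^ (-(2 * y * ((d + 1 : ℕ) : ℝ)))
          ≤ (maxCode (d + 1) φ : ℝ) * ρ ^ (d + 1) := mul_le_mul_of_nonneg_left h3 (by positivity)
        _ ≤ 4 * P * N := h1
        _ ≤ _ := mul_le_mul_of_nonneg_right h2 hN0
    have h5 : (maxCode (d + 1) φ : ℝ) * (2 : ℝ) ^ (-(2 * y * ((d + 1 : ℕ) : ℝ))) *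
        (2 : ℝ) ^ (-(x * ((d + 1 : ℕ) : ℝ))) ≤ N := by
      have h6 := mul_le_mul_of_nonneg_right h4
        (show (0 : ℝ) ≤ (2 : ℝ) ^ (-(x * ((d + 1 : ℕ) : ℝ))) by positivity)
      have h7 : (2 : ℝ) ^ (x * ((d + 1 : ℕ) : ℝ)) * (2 : ℝ) ^ (-(x * ((d + 1 : ℕ) : ℝ))) = 1 := by
        rw [← Real.rpow_add two_pos, add_neg_cancel, Real.rpow_zero]
      calc _ ≤ (2 : ℝ) ^ (x * ((d + 1 : ℕ) : ℝ)) * N * (2 : ℝ) ^ (-(x * ((d + 1 : ℕ) : ℝ))) := h6
        _ = ((2 : ℝ) ^ (x * ((d + 1 : ℕ) : ℝ)) * (2 : ℝ) ^ (-(x * ((d + 1 : ℕ) : ℝ)))) * N := by ring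
        _ = N := by rw [h7, one_mul]
    refine le_trans ?_ h5
    have h6 : 2 * y + x ≤ C' * x := by
      have h8 : 0 ≤ rateBound φ / x₀ * x := by positivity
      have h9 : C' * x = 2 * (C₂ * x) + x + rateBound φ / x₀ * x := by
        rw [hC']; ring
      rw [h9]
      linarith
    have h7 : (0 : ℝ) ≤ ((d + 1 : ℕ) : ℝ) := Nat.cast_nonneg _
    have h10 : -(C' * x * ((d + 1 : ℕ) : ℝ)) ≤
        -(2 * y * ((d + 1 : ℕ) : ℝ)) + -(x * ((d + 1 : ℕ) : ℝ)) := by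
      have := mul_le_mul_of_nonneg_right h6 h7
      linarith
    calc (2 : ℝ) ^ (-(C' * x * ((d + 1 : ℕ) : ℝ))) * (maxCode (d + 1) φ : ℝ)
        ≤ (2 : ℝ) ^ (-(2 * y * ((d + 1 : ℕ) : ℝ)) + -(x * ((d + 1 : ℕ) : ℝ))) *
          (maxCode (d + 1) φ : ℝ) :=
          mul_le_mul_of_nonneg_right (Real.rpow_le_rpow_of_exponent_le one_le_two h10)
            (Nat.cast_nonneg _)
      _ = (maxCode (d + 1) φ : ℝ) * (2 : ℝ) ^ (-(2 * y * ((d + 1 : ℕ) : ℝ))) *
          (2 : ℝ) ^ (-(x * ((d + 1 : ℕ) : ℝ))) := by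
          rw [Real.rpow_add two_pos]; ring

end Pool.Agent.Helper59.Kiss
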