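import Pool.Agent.Helper59.Kiss.Defs

open Filter InnerProductGeometry MeasureTheory
open scoped RealInnerProductSpace

namespace Pool.Agent.Helper59.Kiss

section general

variable {E : Type*} [NormedAddCommGroup E] [InnerProductSpace ℝ E]

lemma le_angle_iff {x y : E} (hx : ‖x‖ = 1) (hy : ‖y‖ = 1) {φ : ℝ} (h0 : 0 ≤ φ)
    (hπ : φ ≤ Real.pi) : φ ≤ angle x y ↔ ⟪x, y⟫ ≤ Real.cos φ := by
  have h1 : ⟪x, y⟫ = Real.cos (angle x y) := by
    rw [cos_angle, hx, hy]; simp
  rw [h1]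
  constructor
  · intro h
    exact Real.cos_le_cos_of_nonneg_of_le_pi h0 (angle_le_pi x y) h
  · intro h
    by_contra hcon
    push Not at hcon
    have := Real.cos_lt_cos_of_nonneg_of_le_pi (angle_nonneg x y) hπ hcon
    linarith

/-- A family of unit vectors with pairwise inner products at most `s`. -/
structure Fam (E : Type*) [NormedAddCommGroup E] [InnerProductSpace ℝ E] (s : ℝ) {ι : Type*}
    (f : ι → E) : Prop where
  norm : ∀ i, ‖f i‖ = 1
  inner : ∀ i j, i ≠ j → ⟪f i, f j⟫ ≤ s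

lemma Fam.injective {s : ℝ} (hs : s < 1) {ι : Type*} {f : ι → E} (h : Fam E s f) :
    Function.Injective f := by
  intro i j hij
  by_contra hne
  have h1 := h.inner i j hne
  rw [hij, real_inner_self_eq_norm_sq, h.norm] at h1
  linarith

lemma Fam.dist {s : ℝ} {ι : Type*} {f : ι → E} (h : Fam E s f) {i j : ι} (hij : i ≠ j) :
    2 - 2 * s ≤ ‖f i - f j‖ ^ 2 := by
  rw [norm_sub_sq_real, h.norm, h.norm]
  have := h.inner i j hij
  linarith

end general

/-- volume bound -/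
lemma Fam.card_le {d : ℕ} {s : ℝ} (hs : s < 1) {ι : Type*} [Fintype ι]
    {f : ι → EuclideanSpace ℝ (Fin d)} (h : Fam _ s f) :
    (Fintype.card ι : ℝ) ≤ (1 + 2 / Real.sqrt (2 - 2 * s)) ^ d := by
  set r := Real.sqrt (2 - 2 * s) with hr
  have hr0 : 0 < r := Real.sqrt_pos.2 (by linarith)
  have hdist : ∀ i j, i ≠ j → r ≤ ‖f i - f j‖ := by
    intro i j hij
    rw [hr]
    exact Real.sqrt_le_iff.2 ⟨norm_nonneg _, h.dist hij⟩
  have hdisj : Pairwise (Function.onFun Disjoint fun i => Metric.ball (f i) (r / 2)) := by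
    intro i j hij
    apply Metric.ball_disjoint_ball
    rw [dist_eq_norm]
    have := hdist i j hij
    linarith
  have hsub : (⋃ i, Metric.ball (f i) (r / 2)) ⊆ Metric.ball 0 (1 + r / 2) := by
    apply Set.iUnion_subset
    intro i
    apply Metric.ball_subset_ball'
    rw [dist_zero_right, h.norm]
    linarith
  have h1 : volume (⋃ i, Metric.ball (f i) (r / 2)) ≤
      volume (Metric.ball (0 : EuclideanSpace ℝ (Fin d)) (1 + r / 2)) := measure_mono hsub
  rw [measure_iUnion hdisj (fun i => measurableSet_ball), tsum_fintype] at h1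
  have hball : ∀ (x : EuclideanSpace ℝ (Fin d)) (t : ℝ), 0 < t → volume (Metric.ball x t) =
      ENNReal.ofReal (t ^ d) * volume (Metric.ball (0 : EuclideanSpace ℝ (Fin d)) 1) := by
    intro x t ht
    rw [Measure.addHaar_ball_of_pos _ _ ht]
    simp
  have hV0 : volume (Metric.ball (0 : EuclideanSpace ℝ (Fin d)) 1) ≠ 0 :=
    (Metric.measure_ball_pos _ _ one_pos).ne'
  have hVt : volume (Metric.ball (0 : EuclideanSpace ℝ (Fin d)) 1) ≠ ⊤ :=
    measure_ball_lt_top.ne
  rw [hball 0 _ (by linarith)] at h1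
  simp only [hball _ _ (half_pos hr0)] at h1
  rw [Finset.sum_const, nsmul_eq_mul, ← mul_assoc] at h1
  rw [ENNReal.mul_le_mul_iff_left hV0 hVt] at h1
  rw [Finset.card_univ, ← ENNReal.ofReal_natCast, ← ENNReal.ofReal_mul (by positivity)] at h1
  rw [ENNReal.ofReal_le_ofReal_iff (by positivity)] at h1
  have h2 : (1 + 2 / r) ^ d = (1 + r / 2) ^ d / (r / 2) ^ d := by
    rw [← div_pow]
    congr 1
    field_simp
    ring
  rw [h2, le_div_iff₀ (by positivity)]
  exact h1

lemma cos_lt_one {φ : ℝ} (h0 : 0 < φ) (hπ : φ ≤ Real.pi) : Real.cos φ < 1 := by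
  have := Real.cos_lt_cos_of_nonneg_of_le_pi le_rfl hπ h0
  rwa [Real.cos_zero] at this

lemma IsCode.fam {d : ℕ} {φ : ℝ} (h0 : 0 < φ) (hπ : φ ≤ Real.pi)
    {C : Finset (EuclideanSpace ℝ (Fin d))} (hC : IsCode d φ C) :
    Fam (EuclideanSpace ℝ (Fin d)) (Real.cos φ) (fun x : C => (x : EuclideanSpace ℝ (Fin d))) where
  norm x := hC.1 x x.2
  inner x y hxy := by
    have h1 := hC.2 x x.2 y y.2 (fun h => hxy (Subtype.ext h))
    exact (le_angle_iff (hC.1 x x.2) (hC.1 y y.2) h0.le hπ).1 h1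

lemma Fam.isCode {d : ℕ} {φ : ℝ} (h0 : 0 < φ) (hπ : φ ≤ Real.pi) {ι : Type*} [Fintype ι]
    [DecidableEq (EuclideanSpace ℝ (Fin d))]
    {f : ι → EuclideanSpace ℝ (Fin d)} (h : Fam _ (Real.cos φ) f) :
    IsCode d φ (Finset.univ.image f) ∧ (Finset.univ.image f).card = Fintype.card ι := by
  refine ⟨⟨?_, ?_⟩, ?_⟩
  · intro x hx
    obtain ⟨i, -, rfl⟩ := Finset.mem_image.1 hx
    exact h.norm i
  · intro x hx y hy hxy
    obtain ⟨i, -, rfl⟩ := Finset.mem_image.1 hx
    obtain ⟨j, -, rfl⟩ := Finset.mem_image.1 hy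
    refine (le_angle_iff (h.norm i) (h.norm j) h0.le hπ).2 (h.inner i j ?_)
    rintro rfl
    exact hxy rfl
  · rw [Finset.card_image_of_injective _ (h.injective (cos_lt_one h0 hπ)), Finset.card_univ]

lemma bddAbove_code {d : ℕ} {φ : ℝ} (h0 : 0 < φ) (hπ : φ ≤ Real.pi) :
    BddAbove {N | ∃ C : Finset (EuclideanSpace ℝ (Fin d)), IsCode d φ C ∧ C.card = N} := by
  refine ⟨⌊(1 + 2 / Real.sqrt (2 - 2 * Real.cos φ)) ^ d⌋₊, ?_⟩
  rintro N ⟨C, hC, rfl⟩
  have h1 := (hC.fam h0 hπ).card_le (cos_lt_one h0 hπ)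
  rw [Fintype.card_coe] at h1
  exact Nat.le_floor h1

lemma nonempty_code {d : ℕ} {φ : ℝ} :
    {N | ∃ C : Finset (EuclideanSpace ℝ (Fin d)), IsCode d φ C ∧ C.card = N}.Nonempty :=
  ⟨0, ∅, ⟨by simp, by simp⟩, rfl⟩

lemma IsCode.card_le {d : ℕ} {φ : ℝ} (h0 : 0 < φ) (hπ : φ ≤ Real.pi)
    {C : Finset (EuclideanSpace ℝ (Fin d))} (hC : IsCode d φ C) : C.card ≤ maxCode d φ :=
  le_csSup (bddAbove_code h0 hπ) ⟨C, hC, rfl⟩

lemma exists_maxCode (d : ℕ) {φ : ℝ} (h0 : 0 < φ) (hπ : φ ≤ Real.pi) :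
    ∃ C : Finset (EuclideanSpace ℝ (Fin d)), IsCode d φ C ∧ C.card = maxCode d φ :=
  Nat.sSup_mem nonempty_code (bddAbove_code h0 hπ)

lemma exists_linearIsometry {E : Type*} [NormedAddCommGroup E] [InnerProductSpace ℝ E]
    [FiniteDimensional ℝ E] {d : ℕ} (hd : Module.finrank ℝ E ≤ d) :
    Nonempty (E →ₗᵢ[ℝ] EuclideanSpace ℝ (Fin d)) := by
  let b := stdOrthonormalBasis ℝ E
  let c := EuclideanSpace.basisFun (Fin d) ℝ
  let L : E →ₗ[ℝ] EuclideanSpace ℝ (Fin d) :=
    b.toBasis.constr ℝ (fun i => c (Fin.castLE hd i))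
  refine ⟨L.isometryOfOrthonormal (v := b.toBasis) ?_ ?_⟩
  · simp [b.orthonormal]
  · have h1 : L ∘ b.toBasis = c ∘ (Fin.castLE hd) := by
      funext i
      simp [L]
    rw [h1]
    exact c.orthonormal.comp _ (Fin.castLE_injective hd)

/-- The master comparison lemma. -/
lemma Fam.card_le_maxCode {E : Type*} [NormedAddCommGroup E] [InnerProductSpace ℝ E]
    [FiniteDimensional ℝ E] {d : ℕ} (hd : Module.finrank ℝ E ≤ d) {φ : ℝ} (h0 : 0 < φ)
    (hπ : φ ≤ Real.pi) {ι : Type*} [Fintype ι] {f : ι → E} (h : Fam E (Real.cos φ) f) :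
    Fintype.card ι ≤ maxCode d φ := by
  classical
  obtain ⟨L⟩ := exists_linearIsometry (E := E) hd
  have h1 : Fam (EuclideanSpace ℝ (Fin d)) (Real.cos φ) (fun i => L (f i)) :=
    ⟨fun i => by rw [L.norm_map, h.norm], fun i j hij => by
      rw [L.inner_map_map]; exact h.inner i j hij⟩
  obtain ⟨h2, h3⟩ := h1.isCode h0 hπ
  rw [← h3]
  exact h2.card_le h0 hπ

lemma maxCode_mono_dim {d d' : ℕ} (h : d ≤ d') {φ : ℝ} (h0 : 0 < φ) (hπ : φ ≤ Real.pi) :
    maxCode d φ ≤ maxCode d' φ := by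
  obtain ⟨C, hC, hcard⟩ := exists_maxCode d h0 hπ
  rw [← hcard, ← Fintype.card_coe]
  exact (hC.fam h0 hπ).card_le_maxCode (by simpa using h) h0 hπ

lemma maxCode_anti_angle {d : ℕ} {φ ψ : ℝ} (h0 : 0 < φ) (h : φ ≤ ψ) (hπ : ψ ≤ Real.pi) :
    maxCode d ψ ≤ maxCode d φ := by
  obtain ⟨C, hC, hcard⟩ := exists_maxCode d (h0.trans_le h) hπ
  rw [← hcard]
  exact IsCode.card_le h0 (h.trans hπ) ⟨hC.1, fun x hx y hy hxy => h.trans (hC.2 x hx y hy hxy)⟩

lemma one_le_maxCode {d : ℕ} (hd : 1 ≤ d) {φ : ℝ} (h0 : 0 < φ) (hπ : φ ≤ Real.pi) :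
    1 ≤ maxCode d φ := by
  have : IsCode d φ {EuclideanSpace.single (⟨0, hd⟩ : Fin d) (1 : ℝ)} := by
    constructor
    · intro x hx
      rw [Finset.mem_singleton.1 hx]
      simp
    · intro x hx y hy hxy
      rw [Finset.mem_singleton] at hx hy
      exact absurd (hx.trans hy.symm) hxy
  exact this.card_le h0 hπ

/-- Wyner's argument -/
lemma wyner {d : ℕ} (hd : 1 ≤ d) {φ : ℝ} (h0 : 0 < φ) (hφ : φ < Real.pi / 2) {η : ℝ}
    (hη0 : 0 < η) (hη1 : η < 1) :
    η ≤ maxCode d φ * (Real.sin φ + η) ^ d := by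
  classical
  have hπ : φ ≤ Real.pi := by linarith [Real.pi_pos]
  have hcos : 0 < Real.cos φ := Real.cos_pos_of_mem_Ioo ⟨by linarith, hφ⟩
  have hsin : 0 < Real.sin φ := Real.sin_pos_of_pos_of_lt_pi h0 (by linarith [Real.pi_pos])
  obtain ⟨C, hC, hcard⟩ := exists_maxCode d h0 hπ
  have hcov : ∀ z : EuclideanSpace ℝ (Fin d), ‖z‖ = 1 → ∃ x ∈ C, Real.cos φ < ⟪x, z⟫ := by
    intro z hz
    by_contra hcon
    push Not at hcon
    have hzC : z ∉ C := by
      intro hzC
      have := hcon z hzC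
      rw [real_inner_self_eq_norm_sq, hz] at this
      have := cos_lt_one h0 hπ
      linarith
    have h1 : IsCode d φ (insert z C) := by
      constructor
      · intro x hx
        rcases Finset.mem_insert.1 hx with rfl | hx
        · exact hz
        · exact hC.1 x hx
      · intro x hx y hy hxy
        rcases Finset.mem_insert.1 hx with rfl | hx <;> rcases Finset.mem_insert.1 hy with rfl | hy
        · exact absurd rfl hxy
        · refine (le_angle_iff hz (hC.1 y hy) h0.le hπ).2 ?_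
          rw [real_inner_comm]
          exact hcon y hy
        · rename_i hx'
          exact (le_angle_iff (hC.1 x hx') hz h0.le hπ).2 (hcon x hx')
        · exact hC.2 x hx y hy hxy
    have h2 := h1.card_le h0 hπ
    rw [Finset.card_insert_of_notMem hzC, hcard] at h2
    omega
  have hball : ∀ (x : EuclideanSpace ℝ (Fin d)) (t : ℝ), 0 < t → volume (Metric.ball x t) =
      ENNReal.ofReal (t ^ d) * volume (Metric.ball (0 : EuclideanSpace ℝ (Fin d)) 1) := by
    intro x t ht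
    rw [Measure.addHaar_ball_of_pos _ _ ht]
    simp
  set V := volume (Metric.ball (0 : EuclideanSpace ℝ (Fin d)) 1) with hV
  have hV0 : V ≠ 0 := (Metric.measure_ball_pos _ _ one_pos).ne'
  have hVt : V ≠ ⊤ := measure_ball_lt_top.ne
  have hsub : Metric.ball (0 : EuclideanSpace ℝ (Fin d)) 1 ⊆
      Metric.ball 0 (1 - η) ∪ ⋃ x ∈ C, Metric.ball (Real.cos φ • x) (Real.sin φ + η) := by
    intro w hw
    rw [Metric.mem_ball, dist_zero_right] at hw
    by_cases hw1 : ‖w‖ < 1 - η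
    · left
      simpa using hw1
    · right
      push Not at hw1
      have hw0 : 0 < ‖w‖ := by linarith
      set z := (‖w‖)⁻¹ • w with hz
      have hz1 : ‖z‖ = 1 := by
        rw [hz, norm_smul, norm_inv, norm_norm, inv_mul_cancel₀ hw0.ne']
      obtain ⟨x, hx, hxz⟩ := hcov z hz1
      simp only [Set.mem_iUnion]
      refine ⟨x, hx, ?_⟩
      rw [Metric.mem_ball, dist_eq_norm]
      have h1 : ‖z - Real.cos φ • x‖ < Real.sin φ := by
        refine lt_of_pow_lt_pow_left₀ 2 hsin.le ?_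
        rw [norm_sub_sq_real, hz1, norm_smul, hC.1 x hx, inner_smul_right, Real.norm_eq_abs,
          mul_one, sq_abs, real_inner_comm, Real.sin_sq]
        nlinarith
      have h2 : ‖w - z‖ ≤ η := by
        have : w - z = (1 - (‖w‖)⁻¹) • w := by rw [hz, sub_smul, one_smul]
        rw [this, norm_smul, Real.norm_eq_abs, abs_sub_comm, abs_of_nonneg, sub_mul,
          inv_mul_cancel₀ hw0.ne', one_mul]
        · linarith
        · rw [sub_nonneg, one_le_inv₀ hw0]
          exact hw.le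
      calc ‖w - Real.cos φ • x‖ = ‖(w - z) + (z - Real.cos φ • x)‖ := by abel_nf
        _ ≤ ‖w - z‖ + ‖z - Real.cos φ • x‖ := norm_add_le _ _
        _ < Real.sin φ + η := by linarith
  have h1 := measure_mono (μ := volume) hsub
  have h2 : volume (Metric.ball (0 : EuclideanSpace ℝ (Fin d)) (1 - η) ∪
      ⋃ x ∈ C, Metric.ball (Real.cos φ • x) (Real.sin φ + η)) ≤
      ENNReal.ofReal ((1 - η) ^ d) * V + C.card * (ENNReal.ofReal ((Real.sin φ + η) ^ d) * V) := by
    refine (measure_union_le _ _).trans (add_le_add ?_ ?_)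
    · rw [hball _ _ (by linarith)]
    · refine (measure_biUnion_finset_le _ _).trans ?_
      rw [Finset.sum_congr rfl (fun x _ => hball _ _ (by positivity)), Finset.sum_const,
        nsmul_eq_mul]
  have h3 := h1.trans h2
  rw [← mul_assoc, ← add_mul] at h3
  have h4 : (1 : ENNReal) * V ≤ (ENNReal.ofReal ((1 - η) ^ d) +
      C.card * ENNReal.ofReal ((Real.sin φ + η) ^ d)) * V := by rwa [one_mul]
  rw [ENNReal.mul_le_mul_iff_left hV0 hVt, ← ENNReal.ofReal_natCast, ← ENNReal.ofReal_mul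
    (by positivity), ← ENNReal.ofReal_add (by
      apply pow_nonneg; linarith) (by positivity), ENNReal.one_le_ofReal] at h4
  have h5 : (1 - η) ^ d ≤ 1 - η := by
    calc (1 - η) ^ d ≤ (1 - η) ^ 1 := pow_le_pow_of_le_one (by linarith) (by linarith) hd
      _ = 1 - η := pow_one _
  rw [← hcard]
  linarith

end Pool.Agent.Helper59.Kiss
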