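import Pool.Agent.Helper59.Kiss.Strict

open Filter MeasureTheory InnerProductGeometry
open scoped RealInnerProductSpace Topology

namespace Pool.Agent.Helper59.Kiss

open Classical in
/-- The set of ordered pairs of distinct points of `C` at angle smaller than `ψ`. -/
noncomputable def nearPairs {d : ℕ} (ψ : ℝ) (C : Finset (EuclideanSpace ℝ (Fin d))) :
    Finset (EuclideanSpace ℝ (Fin d) × EuclideanSpace ℝ (Fin d)) :=
  (C ×ˢ C).filter fun p => p.1 ≠ p.2 ∧ angle p.1 p.2 < ψ

/-- greedy independent sets -/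
lemma exists_independent {α : Type*} (J : Finset α) (R : α → α → Prop) [DecidableRel R]
    (hR : ∀ x y, R x y → R y x) (K : ℝ)
    (hdeg : ∀ x ∈ J, ((J.filter fun y => R x y).card : ℝ) ≤ K) :
    ∃ I ⊆ J, (∀ x ∈ I, ∀ y ∈ I, x ≠ y → ¬ R x y) ∧ (J.card : ℝ) ≤ I.card * (1 + K) := by
  classical
  let S : Finset (Finset α) := J.powerset.filter fun I => ∀ x ∈ I, ∀ y ∈ I, x ≠ y → ¬ R x y
  have hS : S.Nonempty := ⟨∅, by simp [S]⟩
  obtain ⟨I, hI, hmax⟩ := Finset.exists_max_image S Finset.card hS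
  rw [Finset.mem_filter, Finset.mem_powerset] at hI
  refine ⟨I, hI.1, hI.2, ?_⟩
  have hcov : J ⊆ I.biUnion fun x => insert x (J.filter fun y => R x y) := by
    intro y hy
    rw [Finset.mem_biUnion]
    by_cases hyI : y ∈ I
    · exact ⟨y, hyI, Finset.mem_insert_self _ _⟩
    · by_contra hcon
      push Not at hcon
      have h1 : insert y I ∈ S := by
        rw [Finset.mem_filter, Finset.mem_powerset]
        refine ⟨Finset.insert_subset hy hI.1, ?_⟩
        intro a ha b hb hab hRab
        rcases Finset.mem_insert.1 ha with rfl | ha' <;> rcases Finset.mem_insert.1 hb with rfl | hb'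
        · exact hab rfl
        · exact hcon b hb' (Finset.mem_insert_of_mem (Finset.mem_filter.2 ⟨hy, hR _ _ hRab⟩))
        · exact hcon a ha' (Finset.mem_insert_of_mem (Finset.mem_filter.2 ⟨hy, hRab⟩))
        · exact hI.2 a ha' b hb' hab hRab
      have h2 := hmax _ h1
      rw [Finset.card_insert_of_notMem hyI] at h2
      omega
  have h1 : (J.card : ℝ) ≤ ∑ x ∈ I, (1 + K) := by
    calc (J.card : ℝ) ≤ ((I.biUnion fun x => insert x (J.filter fun y => R x y)).card : ℝ) := by
          exact_mod_cast Finset.card_le_card hcov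
      _ ≤ ((∑ x ∈ I, (insert x (J.filter fun y => R x y)).card : ℕ) : ℝ) := by
          exact_mod_cast Finset.card_biUnion_le
      _ = ∑ x ∈ I, ((insert x (J.filter fun y => R x y)).card : ℝ) := by push_cast; rfl
      _ ≤ ∑ x ∈ I, (1 + K) := by
          apply Finset.sum_le_sum
          intro x hx
          have h2 : ((insert x (J.filter fun y => R x y)).card : ℝ) ≤
              ((J.filter fun y => R x y).card : ℝ) + 1 := by
            exact_mod_cast Finset.card_insert_le _ _
          have h3 := hdeg x (hI.1 hx)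
          linarith
  rw [Finset.sum_const, nsmul_eq_mul] at h1
  exact h1

/-- The crowding inequality. -/
theorem crowding_inequality {φ ψ : ℝ} (h0 : 0 < φ) (h : φ < ψ) (hψ : ψ < Real.pi / 2) :
    ∃ a : ℝ, 0 < a ∧ a < 1 ∧ ∀ m k : ℕ, (k : ℝ) ≤ a * (m + k : ℕ) →
      ∀ C : Finset (EuclideanSpace ℝ (Fin (m + k))), IsCode (m + k) φ C →
        (C.card : ℝ) ^ 2 ≤ 4 * maxCode m φ * (C.card + 2 * (nearPairs ψ C).card) := by
  classical
  obtain ⟨a, ha0, ha1, ha⟩ := puncture_angle h0 h hψ
  refine ⟨a, ha0, ha1, fun m k hk C hC => ?_⟩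
  rcases C.eq_empty_or_nonempty with rfl | hCne
  · simp only [Finset.card_empty, Nat.cast_zero, ne_eq, OfNat.ofNat_ne_zero, not_false_eq_true,
      zero_pow, zero_add]
    positivity
  have hN0 : (0 : ℝ) < C.card := by exact_mod_cast hCne.card_pos
  set N : ℝ := (C.card : ℝ) with hN
  set P : ℝ := ((nearPairs ψ C).card : ℝ) with hP
  have hP0 : 0 ≤ P := Nat.cast_nonneg _
  let R : EuclideanSpace ℝ (Fin (m + k)) → EuclideanSpace ℝ (Fin (m + k)) → Prop :=
    fun x y => x ≠ y ∧ angle x y < ψ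
  have hR : ∀ x y, R x y → R y x := fun x y hxy => ⟨hxy.1.symm, by
    rw [angle_comm]; exact hxy.2⟩
  let deg : EuclideanSpace ℝ (Fin (m + k)) → ℝ := fun x => ((C.filter fun y => R x y).card : ℝ)
  have hPsum : P = ∑ x ∈ C, deg x := by
    rw [hP]
    have h1 : (nearPairs ψ C).card = ∑ x ∈ C, (C.filter fun y => R x y).card := by
      unfold nearPairs
      rw [Finset.card_filter, Finset.sum_product]
      apply Finset.sum_congr rfl
      intro x _
      rw [Finset.card_filter]
    rw [h1]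
    push_cast
    rfl
  set K : ℝ := 2 * P / N with hK
  have hK0 : 0 ≤ K := by positivity
  set J := C.filter fun x => deg x ≤ K with hJ
  have hJcard : N ≤ 2 * J.card := by
    have hsplit := Finset.card_filter_add_card_filter_not (s := C) (fun x => deg x ≤ K)
    set N2 := (C.filter fun x => ¬ deg x ≤ K).card with hN2
    have h1 : (J.card : ℝ) + N2 = N := by rw [hN, ← hsplit]; push_cast; rfl
    have h2 : (N2 : ℝ) * K ≤ P := by
      rw [hPsum]
      calc (N2 : ℝ) * K = ∑ x ∈ C.filter (fun x => ¬ deg x ≤ K), K := by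
            rw [Finset.sum_const, nsmul_eq_mul]
        _ ≤ ∑ x ∈ C.filter (fun x => ¬ deg x ≤ K), deg x := by
            apply Finset.sum_le_sum
            intro x hx
            exact (not_le.1 (Finset.mem_filter.1 hx).2).le
        _ ≤ ∑ x ∈ C, deg x := by
            apply Finset.sum_le_sum_of_subset_of_nonneg (Finset.filter_subset _ _)
            intro x _ _
            exact Nat.cast_nonneg _
    rcases hP0.eq_or_lt with h3 | h3
    · -- no near pairs
      have h4 : N2 = 0 := by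
        rw [hN2, Finset.card_eq_zero, Finset.filter_eq_empty_iff]
        intro x hx
        rw [not_not]
        have h5 : ∑ x ∈ C, deg x = 0 := by rw [← hPsum, ← h3]
        have h6 := (Finset.sum_eq_zero_iff_of_nonneg (fun x _ => Nat.cast_nonneg _)).1 h5 x hx
        exact le_trans (le_of_eq h6) hK0
      rw [h4] at h1
      push_cast at h1
      linarith
    · have h4 : (N2 : ℝ) * 2 ≤ N := by
        rw [hK, mul_div_assoc', div_le_iff₀ hN0] at h2
        have : ((N2 : ℝ) * 2) * P ≤ N * P := by linarith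
        exact le_of_mul_le_mul_right this h3
      linarith
  obtain ⟨I, hIJ, hI, hIcard⟩ := exists_independent J R hR K (by
    intro x hx
    have h1 := (Finset.mem_filter.1 hx).2
    refine le_trans ?_ h1
    apply Nat.cast_le.2
    apply Finset.card_le_card
    intro y hy
    rw [Finset.mem_filter] at hy ⊢
    exact ⟨(Finset.mem_filter.1 hy.1).1, hy.2⟩)
  have hIC : I ⊆ C := hIJ.trans (Finset.filter_subset _ _)
  have hIcode : IsCode (m + k) ψ I := by
    refine ⟨fun x hx => hC.1 x (hIC hx), fun x hx y hy hxy => ?_⟩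
    by_contra hcon
    push Not at hcon
    exact hI x hx y hy hxy ⟨hxy, hcon⟩
  have h1 := ha m k hk I hIcode
  have h2 : (I.card : ℝ) ≤ 2 * maxCode m φ := by exact_mod_cast h1
  have h3 : N ≤ 4 * maxCode m φ * (1 + K) := by
    have h4 : (I.card : ℝ) * (1 + K) ≤ 2 * maxCode m φ * (1 + K) :=
      mul_le_mul_of_nonneg_right h2 (by linarith)
    linarith
  calc N ^ 2 = N * N := sq N
    _ ≤ (4 * maxCode m φ * (1 + K)) * N := mul_le_mul_of_nonneg_right h3 hN0.le
    _ = 4 * maxCode m φ * (N + 2 * P) := by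
        rw [hK]
        field_simp

/-- Near-optimal codes are exponentially crowded. -/
theorem crowding {φ : ℝ} (h0 : 0 < φ) (hφ : φ < Real.pi / 2) {ψ : ℝ} (h : φ < ψ) :
    ∃ η : ℝ, 0 < η ∧ ∃ d₀ : ℕ, ∀ d ≥ d₀, ∀ C : Finset (EuclideanSpace ℝ (Fin d)),
      IsCode d φ C → (2 : ℝ) ^ ((upperExp φ - η) * d) ≤ C.card →
        (2 : ℝ) ^ (η * d) * C.card ≤ (nearPairs ψ C).card := by
  classical
  have hπ : φ ≤ Real.pi := by linarith [Real.pi_pos]
  -- reduce to `ψ < π / 2`
  obtain ⟨ψ', hψ'1, hψ'2, hψ'3⟩ : ∃ ψ' : ℝ, φ < ψ' ∧ ψ' < Real.pi / 2 ∧ ψ' ≤ ψ := by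
    refine ⟨min ψ ((φ + Real.pi / 2) / 2), lt_min h (by linarith), ?_, min_le_left _ _⟩
    exact (min_le_right _ _).trans_lt (by linarith)
  obtain ⟨a, ha0, ha1, ha⟩ := crowding_inequality h0 hψ'1 hψ'2
  have hc0 : 0 < upperExp φ := (lowerExp_pos h0 hφ).trans_le (lowerExp_le_upperExp h0 hπ)
  set c := upperExp φ with hc
  set η := a * c / 8 with hη
  have hη0 : 0 < η := by positivity
  have h1 := eventually_rate_lt h0 hπ (show upperExp φ < c + η by linarith)
  rw [eventually_atTop] at h1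
  obtain ⟨M, hM⟩ := h1
  have e1 : ∀ᶠ D : ℕ in atTop, (5 + (c + η)) / (D : ℝ) < η :=
    (tendsto_const_div_atTop_nhds_zero_nat _).eventually (gt_mem_nhds hη0)
  have e2 : ∀ᶠ D : ℕ in atTop, (M : ℝ) + 1 ≤ (1 - a) * D := by
    have : Tendsto (fun D : ℕ => (1 - a) * (D : ℝ)) atTop atTop :=
      tendsto_natCast_atTop_atTop.const_mul_atTop (by linarith)
    exact this.eventually_ge_atTop _
  have e3 : ∀ᶠ D : ℕ in atTop, 1 ≤ D := eventually_ge_atTop 1
  obtain ⟨d₀, hd₀⟩ := eventually_atTop.1 (e1.and (e2.and e3))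
  refine ⟨η, hη0, d₀, fun d hd C hC hcard => ?_⟩
  obtain ⟨hD1, hD2, hD3⟩ := hd₀ d hd
  have hd' : (0 : ℝ) < d := by exact_mod_cast hD3
  have hsub : (nearPairs ψ' C).card ≤ (nearPairs ψ C).card := by
    apply Finset.card_le_card
    intro p hp
    unfold nearPairs at hp ⊢
    rw [Finset.mem_filter] at hp ⊢
    exact ⟨hp.1, hp.2.1, hp.2.2.trans_le hψ'3⟩
  refine le_trans ?_ (by exact_mod_cast hsub : ((nearPairs ψ' C).card : ℝ) ≤ _)
  by_contra hcon
  push Not at hcon
  set k := ⌊a * d⌋₊ with hk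
  have hkle : (k : ℝ) ≤ a * d := Nat.floor_le (by positivity)
  have hklt : a * d < k + 1 := Nat.lt_floor_add_one _
  have hkD : k ≤ d := by
    have : (k : ℝ) ≤ d := hkle.trans (by nlinarith)
    exact_mod_cast this
  obtain ⟨m, hm⟩ := Nat.exists_eq_add_of_le' hkD
  have hmD : (m : ℝ) = d - k := by
    rw [hm]; push_cast; ring
  have hmM : M ≤ m := by
    have : (M : ℝ) ≤ m := by rw [hmD]; nlinarith
    exact_mod_cast this
  have hm1 : 1 ≤ m := by
    have : (0 : ℝ) < m := by
      rw [hmD]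
      have : (0 : ℝ) ≤ M := Nat.cast_nonneg _
      nlinarith
    exact_mod_cast this
  have hm' : (0 : ℝ) < m := by exact_mod_cast hm1
  have hineq : (C.card : ℝ) ^ 2 ≤ 4 * maxCode m φ * (C.card + 2 * (nearPairs ψ' C).card) := by
    clear hcon hsub hcard hd hD1 hD2 hD3
    clear_value k
    subst hm
    exact ha m k hkle C hC
  have hNpos : (0 : ℝ) < C.card := lt_of_lt_of_le (by positivity) hcard
  have hX1 : (1 : ℝ) ≤ 2 ^ (η * d) := Real.one_le_rpow one_le_two (by positivity)
  have hmax0 : (0 : ℝ) < maxCode m φ := by exact_mod_cast one_le_maxCode hm1 h0 hπ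
  -- `N ≤ 12 τ(m) 2^{η d}`
  have h3 : (C.card : ℝ) ≤ 12 * maxCode m φ * 2 ^ (η * d) := by
    have h4 : (C.card : ℝ) ^ 2 ≤ (12 * maxCode m φ * 2 ^ (η * d)) * C.card := by
      refine hineq.trans ?_
      have h5 : (C.card : ℝ) + 2 * (nearPairs ψ' C).card ≤ 3 * (2 ^ (η * d) * C.card) := by
        nlinarith
      calc 4 * (maxCode m φ : ℝ) * (C.card + 2 * (nearPairs ψ' C).card)
          ≤ 4 * (maxCode m φ : ℝ) * (3 * (2 ^ (η * d) * C.card)) :=
            mul_le_mul_of_nonneg_left h5 (by positivity)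
        _ = _ := by ring
    rw [sq] at h4
    exact le_of_mul_le_mul_right h4 hNpos
  have h4 := Real.logb_le_logb_of_le one_lt_two (by positivity) (hcard.trans h3)
  rw [Real.logb_rpow two_pos (by norm_num), Real.logb_mul (by positivity) (by positivity),
    Real.logb_mul (by norm_num) hmax0.ne', Real.logb_rpow two_pos (by norm_num)] at h4
  have h5 : Real.logb 2 12 ≤ 4 := by
    rw [Real.logb_le_iff_le_rpow one_lt_two (by norm_num)]
    norm_num
  have h6 : Real.logb 2 (maxCode m φ) = m * rate φ m := by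
    unfold rate
    field_simp
  have h7 := hM m hmM
  have h8 : (m : ℝ) ≤ (1 - a) * d + 1 := by rw [hmD]; linarith
  have h9 : (m : ℝ) * rate φ m ≤ ((1 - a) * d + 1) * (c + η) := by
    apply mul_le_mul h8 h7.le (rate_nonneg φ m)
    nlinarith
  rw [h6] at h4
  rw [div_lt_iff₀ hd'] at hD1
  have h10 : a * c = 8 * η := by rw [hη]; ring
  have h11 : 0 < a * η * d := by positivity
  nlinarith

end Pool.Agent.Helper59.Kiss
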