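import Pool.Agent.Helper59.Kiss.Crowding

open Pool.Agent.Helper59.Kiss

namespace Pool.Agent.Helper59.Kiss.CrowdingKeep

/-- **Near-optimal kissing arrangements are exponentially crowded.**
Let `0 < φ < π/2` (for kissing arrangements `φ = π/3`) and let `ψ > φ`.  There is `η > 0` such
that for all large `d`, every set `C` of points of the unit sphere of `ℝ^d` with pairwise angles
at least `φ` and with `|C| ≥ 2^{(c_+(φ) - η) d}` has at least `2^{η d} |C|` ordered pairs of
distinct points at angle smaller than `ψ`. -/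
theorem result {φ : ℝ} (h0 : 0 < φ) (hφ : φ < Real.pi / 2) {ψ : ℝ} (h : φ < ψ) :
    ∃ η : ℝ, 0 < η ∧ ∃ d₀ : ℕ, ∀ d ≥ d₀, ∀ C : Finset (EuclideanSpace ℝ (Fin d)),
      IsCode d φ C → (2 : ℝ) ^ ((upperExp φ - η) * d) ≤ C.card →
        (2 : ℝ) ^ (η * d) * C.card ≤ (nearPairs ψ C).card :=
  crowding h0 hφ h

end Pool.Agent.Helper59.Kiss.CrowdingKeep
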