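import Mathlib

open Filter InnerProductGeometry

namespace Pool.Agent.Helper59.Kiss

/-- A finite set of points of the unit sphere of `ℝ^d` with pairwise angular separation at
least `φ`. -/
def IsCode (d : ℕ) (φ : ℝ) (C : Finset (EuclideanSpace ℝ (Fin d))) : Prop :=
  (∀ x ∈ C, ‖x‖ = 1) ∧ ∀ x ∈ C, ∀ y ∈ C, x ≠ y → φ ≤ angle x y

/-- The maximum number of points on the unit sphere of `ℝ^d` whose pairwise angular separations
are all at least `φ`. -/
noncomputable def maxCode (d : ℕ) (φ : ℝ) : ℕ :=
  sSup {N | ∃ C : Finset (EuclideanSpace ℝ (Fin d)), IsCode d φ C ∧ C.card = N}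

/-- The kissing number `τ(d)` of the unit ball of `ℝ^d`. -/
noncomputable def kissing (d : ℕ) : ℕ := maxCode d (Real.pi / 3)

/-- `c_-(φ)`, the lower exponent of spherical codes of angle `φ`. -/
noncomputable def lowerExp (φ : ℝ) : ℝ :=
  liminf (fun d : ℕ => Real.logb 2 (maxCode d φ) / d) atTop

/-- `c_+(φ)`, the upper exponent of spherical codes of angle `φ`. -/
noncomputable def upperExp (φ : ℝ) : ℝ :=
  limsup (fun d : ℕ => Real.logb 2 (maxCode d φ) / d) atTop

end Pool.Agent.Helper59.Kiss
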