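import Pool.Agent.Helper59.Kiss.Flatten

open Filter MeasureTheory InnerProductGeometry
open scoped RealInnerProductSpace Topology

namespace Pool.Agent.Helper59.Kiss

/-- the normalised logarithm -/
noncomputable def rate (φ : ℝ) (d : ℕ) : ℝ := Real.logb 2 (maxCode d φ) / d

lemma lowerExp_eq (φ : ℝ) : lowerExp φ = liminf (rate φ) atTop := rfl

lemma upperExp_eq (φ : ℝ) : upperExp φ = limsup (rate φ) atTop := rfl

lemma logb_nonneg_nat (n : ℕ) : 0 ≤ Real.logb 2 (n : ℝ) := by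
  rcases Nat.eq_zero_or_pos n with rfl | h
  · simp
  · exact Real.logb_nonneg one_lt_two (by exact_mod_cast h)

lemma rate_nonneg (φ : ℝ) (d : ℕ) : 0 ≤ rate φ d :=
  div_nonneg (logb_nonneg_nat _) (Nat.cast_nonneg _)

/-- upper bound for the rate -/
noncomputable def rateBound (φ : ℝ) : ℝ :=
  Real.logb 2 (1 + 2 / Real.sqrt (2 - 2 * Real.cos φ))

lemma maxCode_le {d : ℕ} {φ : ℝ} (h0 : 0 < φ) (hπ : φ ≤ Real.pi) :
    (maxCode d φ : ℝ) ≤ (1 + 2 / Real.sqrt (2 - 2 * Real.cos φ)) ^ d := by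
  obtain ⟨C, hC, hcard⟩ := exists_maxCode d h0 hπ
  have h1 := (hC.fam h0 hπ).card_le (cos_lt_one h0 hπ)
  rw [Fintype.card_coe, hcard] at h1
  exact h1

lemma rateBound_nonneg (φ : ℝ) : 0 ≤ rateBound φ := by
  apply Real.logb_nonneg one_lt_two
  have : 0 ≤ 2 / Real.sqrt (2 - 2 * Real.cos φ) := by positivity
  linarith

lemma rate_le {φ : ℝ} (h0 : 0 < φ) (hπ : φ ≤ Real.pi) (d : ℕ) : rate φ d ≤ rateBound φ := by
  unfold rate
  rcases Nat.eq_zero_or_pos d with rfl | hd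
  · simpa using rateBound_nonneg φ
  have hd' : (0 : ℝ) < d := by exact_mod_cast hd
  rw [div_le_iff₀ hd']
  have h1 : (0 : ℝ) < maxCode d φ := by exact_mod_cast one_le_maxCode hd h0 hπ
  have h2 := Real.logb_le_logb_of_le one_lt_two h1 (maxCode_le (d := d) h0 hπ)
  rw [Real.logb_pow] at h2
  unfold rateBound
  linarith

lemma isBoundedUnder_le {φ : ℝ} (h0 : 0 < φ) (hπ : φ ≤ Real.pi) :
    IsBoundedUnder (· ≤ ·) atTop (rate φ) :=
  isBoundedUnder_of ⟨rateBound φ, rate_le h0 hπ⟩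

lemma isBoundedUnder_ge (φ : ℝ) : IsBoundedUnder (· ≥ ·) atTop (rate φ) :=
  isBoundedUnder_of ⟨0, rate_nonneg φ⟩

lemma eventually_rate_lt {φ : ℝ} (h0 : 0 < φ) (hπ : φ ≤ Real.pi) {c : ℝ} (hc : upperExp φ < c) :
    ∀ᶠ d in atTop, rate φ d < c :=
  eventually_lt_of_limsup_lt hc (isBoundedUnder_le h0 hπ)

lemma eventually_lt_rate {φ : ℝ} {c : ℝ} (hc : c < lowerExp φ) :
    ∀ᶠ d in atTop, c < rate φ d :=
  eventually_lt_of_lt_liminf hc (isBoundedUnder_ge φ)

lemma frequently_lt_rate {φ : ℝ} {c : ℝ} (hc : c < upperExp φ) :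
    ∃ᶠ d in atTop, c < rate φ d :=
  frequently_lt_of_lt_limsup (isBoundedUnder_ge φ).isCoboundedUnder_le hc

lemma frequently_rate_lt {φ : ℝ} (h0 : 0 < φ) (hπ : φ ≤ Real.pi) {c : ℝ} (hc : lowerExp φ < c) :
    ∃ᶠ d in atTop, rate φ d < c :=
  frequently_lt_of_liminf_lt (isBoundedUnder_le h0 hπ).isCoboundedUnder_ge hc

lemma lowerExp_le_upperExp {φ : ℝ} (h0 : 0 < φ) (hπ : φ ≤ Real.pi) : lowerExp φ ≤ upperExp φ :=
  liminf_le_limsup (isBoundedUnder_le h0 hπ) (isBoundedUnder_ge φ)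

/-- Wyner's bound -/
theorem lowerExp_ge {φ : ℝ} (h0 : 0 < φ) (hφ : φ < Real.pi / 2) :
    - Real.logb 2 (Real.sin φ) ≤ lowerExp φ := by
  have hπ : φ ≤ Real.pi := by linarith [Real.pi_pos]
  have hsin : 0 < Real.sin φ := Real.sin_pos_of_pos_of_lt_pi h0 (by linarith [Real.pi_pos])
  refine le_of_forall_lt_imp_le_of_dense fun c hc => ?_
  have hcont : Tendsto (fun η : ℝ => - Real.logb 2 (Real.sin φ + η)) (𝓝[>] 0)
      (𝓝 (- Real.logb 2 (Real.sin φ))) := by
    have h1 : ContinuousAt (fun η : ℝ => - Real.logb 2 (Real.sin φ + η)) 0 := by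
      unfold Real.logb
      apply ContinuousAt.neg
      apply ContinuousAt.div_const
      apply ContinuousAt.log
      · fun_prop
      · simp only [add_zero]
        exact hsin.ne'
    have h2 := h1.tendsto
    simp only [add_zero] at h2
    exact h2.mono_left nhdsWithin_le_nhds
  have h1 := hcont.eventually (lt_mem_nhds hc)
  have h2 : ∀ᶠ η : ℝ in 𝓝[>] 0, η ∈ Set.Ioo (0 : ℝ) 1 :=
    Ioo_mem_nhdsGT one_pos
  obtain ⟨η, hη1, hη0, hη2⟩ := (h1.and h2).exists
  apply le_liminf_of_le (isBoundedUnder_le h0 hπ).isCoboundedUnder_ge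
  have h3 : Tendsto (fun d : ℕ => Real.logb 2 η / (d : ℝ)) atTop (𝓝 0) :=
    tendsto_const_div_atTop_nhds_zero_nat _
  have h4 : ∀ᶠ d : ℕ in atTop, c + Real.logb 2 (Real.sin φ + η) < Real.logb 2 η / (d : ℝ) :=
    h3.eventually (lt_mem_nhds (by linarith))
  filter_upwards [h4, eventually_ge_atTop 1] with d hd hd1
  have hd' : (0 : ℝ) < d := by exact_mod_cast hd1
  have h5 := wyner hd1 h0 hφ hη0 hη2
  have hN : (0 : ℝ) < maxCode d φ := by exact_mod_cast one_le_maxCode hd1 h0 hπ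
  have h6 := Real.logb_le_logb_of_le one_lt_two hη0 h5
  rw [Real.logb_mul hN.ne' (by positivity), Real.logb_pow] at h6
  unfold rate
  rw [le_div_iff₀ hd']
  rw [lt_div_iff₀ hd'] at hd
  nlinarith

lemma lowerExp_pos {φ : ℝ} (h0 : 0 < φ) (hφ : φ < Real.pi / 2) : 0 < lowerExp φ := by
  refine lt_of_lt_of_le ?_ (lowerExp_ge h0 hφ)
  have hsin : 0 < Real.sin φ := Real.sin_pos_of_pos_of_lt_pi h0 (by linarith [Real.pi_pos])
  have hsin1 : Real.sin φ < 1 := by
    rw [← Real.sin_pi_div_two]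
    exact Real.sin_lt_sin_of_lt_of_le_pi_div_two (by linarith) le_rfl hφ
  have := Real.logb_neg one_lt_two hsin hsin1
  linarith

lemma tendsto_beta : Tendsto beta atTop (𝓝 0) := by
  unfold beta
  have h1 : Tendsto (fun T : ℝ => T - T ^ 2 / 4) atTop atBot := by
    have h2 : (fun T : ℝ => T - T ^ 2 / 4) = fun T : ℝ => T * (1 - T / 4) := by
      funext T; ring
    rw [h2]
    apply Tendsto.atTop_mul_atBot₀ tendsto_id
    have h3 : (fun T : ℝ => 1 - T / 4) = fun T : ℝ => 1 + (-(1 / 4)) * T := by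
      funext T; ring
    rw [h3]
    exact tendsto_atBot_add_const_left _ 1 (tendsto_id.const_mul_atTop_of_neg (by norm_num))
  have h3 := Real.tendsto_exp_atBot.comp h1
  have h4 := h3.const_mul 4
  simpa using h4

/-- Puncturing, in terms of angles. -/
theorem puncture_angle {φ ψ : ℝ} (h0 : 0 < φ) (h : φ < ψ) (hψ : ψ < Real.pi / 2) :
    ∃ a : ℝ, 0 < a ∧ a < 1 ∧ ∀ m k : ℕ, (k : ℝ) ≤ a * (m + k : ℕ) →
      ∀ C : Finset (EuclideanSpace ℝ (Fin (m + k))), IsCode (m + k) ψ C →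
        C.card ≤ 2 * maxCode m φ := by
  have hπ : ψ ≤ Real.pi := by linarith [Real.pi_pos]
  have hcos : Real.cos ψ < Real.cos φ :=
    Real.cos_lt_cos_of_nonneg_of_le_pi h0.le hπ h
  have hcos1 : Real.cos φ ≤ 1 := Real.cos_le_one φ
  have hcosψ : 0 ≤ Real.cos ψ := Real.cos_nonneg_of_neg_pi_div_two_le_of_le (by linarith) hψ.le
  set γ := (Real.cos φ - Real.cos ψ) / 2 with hγ
  have hγ0 : 0 < γ := by rw [hγ]; linarith
  have hγ1 : γ < 1 := by rw [hγ]; linarith
  have h1 : ∀ᶠ T in atTop, beta T < γ / 4 :=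
    tendsto_beta.eventually_lt_const (by positivity)
  obtain ⟨T, hT1, hT2⟩ := (h1.and (eventually_ge_atTop (2 : ℝ))).exists
  have hT0 : (0 : ℝ) < T := by linarith
  refine ⟨γ / (2 * T ^ 2), by positivity, ?_, ?_⟩
  · rw [div_lt_one (by positivity)]
    nlinarith
  · intro m k hk C hC
    have h2 := puncture (m := m) (k := k) (s' := Real.cos ψ) (γ := γ) (T := T) h0
      (by linarith) hT2 ?_ hγ1 ?_ (hC.fam (h0.trans h) hπ)
    · rwa [Fintype.card_coe] at h2
    · have h3 : k * T ^ 2 / ((m + k : ℕ) : ℝ) ≤ γ / 2 := by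
        rcases Nat.eq_zero_or_pos (m + k) with h0' | hpos
        · rw [h0']
          simp only [Nat.cast_zero, div_zero]
          positivity
        · have hpos' : (0 : ℝ) < ((m + k : ℕ) : ℝ) := by exact_mod_cast hpos
          rw [div_le_iff₀ hpos']
          calc (k : ℝ) * T ^ 2 ≤ (γ / (2 * T ^ 2) * ((m + k : ℕ) : ℝ)) * T ^ 2 :=
                mul_le_mul_of_nonneg_right hk (by positivity)
            _ = γ / 2 * ((m + k : ℕ) : ℝ) := by field_simp
      linarith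
    · nlinarith

end Pool.Agent.Helper59.Kiss
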