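import Pool.Agent.Helper59.Kiss.PermCode

open Pool.Agent.Helper59.Kiss

namespace Pool.Agent.Helper59.Kiss.FiniteAlphabetKeep

/-- **Reduction of the exponents of kissing numbers and spherical codes to a finite combinatorial
problem.**  Let `0 < φ < π/2` (kissing numbers: `φ = π/3`).  `maxPerm d k φ` is the largest size of
a set `S` of permutations of the coordinates of one nonzero integer vector `v` of length `d` with
entries in `{-k, …, k}` such that `∑ v_{σ(i)} v_{τ(i)} ≤ cos φ · ∑ v_i²` for all `σ ≠ τ` in `S`.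
For all `k ≥ 1` and all large `d` it agrees with the largest size of a spherical code of angle `φ`
up to a factor `2^{-C d √(log(k+1)) / k}`, where `C` only depends on `φ`. -/
theorem result {φ : ℝ} (h0 : 0 < φ) (hφ : φ < Real.pi / 2) :
    ∃ C : ℝ, 0 < C ∧ ∀ k : ℕ, 1 ≤ k → (∀ d, maxPerm d k φ ≤ maxCode d φ) ∧
      ∃ d₀ : ℕ, ∀ d ≥ d₀,
        (2 : ℝ) ^ (-(C * Real.sqrt (Real.log (k + 1)) / k * d)) * maxCode d φ ≤
          maxPerm d k φ :=
  finite_alphabet h0 hφ

end Pool.Agent.Helper59.Kiss.FiniteAlphabetKeep
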