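import Pool.Agent.Helper59.Kiss.Hartley

open Filter MeasureTheory
open scoped RealInnerProductSpace

namespace Pool.Agent.Helper59.Kiss

/-- random signs followed by the Hartley transform -/
noncomputable def Umap {D : ℕ} (e : Fin D → Bool) (x : EuclideanSpace ℝ (Fin D)) :
    EuclideanSpace ℝ (Fin D) :=
  WithLp.toLp 2 fun i => (Real.sqrt D)⁻¹ * ∑ j, cas D i j * x j * sg (e j)

lemma Umap_inner {D : ℕ} (e : Fin D → Bool) (x y : EuclideanSpace ℝ (Fin D)) :
    ⟪Umap e x, Umap e y⟫ = ⟪x, y⟫ := by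
  rcases Nat.eq_zero_or_pos D with rfl | hD
  · simp [PiLp.inner_apply]
  have hD' : (0 : ℝ) < D := by exact_mod_cast hD
  have hs : (Real.sqrt D)⁻¹ * (Real.sqrt D)⁻¹ = (D : ℝ)⁻¹ := by
    rw [← mul_inv, Real.mul_self_sqrt hD'.le]
  simp only [PiLp.inner_apply, RCLike.inner_apply, conj_trivial, Umap]
  have h1 : ∀ i : Fin D, (Real.sqrt D)⁻¹ * (∑ j, cas D i j * y j * sg (e j)) *
      ((Real.sqrt D)⁻¹ * ∑ j, cas D i j * x j * sg (e j)) =
      ∑ j, ∑ k, (D : ℝ)⁻¹ * (y j * sg (e j) * (x k * sg (e k))) * (cas D i j * cas D i k) := by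
    intro i
    rw [mul_mul_mul_comm, hs, Finset.sum_mul_sum, Finset.mul_sum]
    apply Finset.sum_congr rfl
    intro j _
    rw [Finset.mul_sum]
    apply Finset.sum_congr rfl
    intro k _
    ring
  rw [Finset.sum_congr rfl (fun i _ => h1 i), Finset.sum_comm]
  apply Finset.sum_congr rfl
  intro j _
  rw [Finset.sum_comm]
  have h2 : ∀ k : Fin D, ∑ i, (D : ℝ)⁻¹ * (y j * sg (e j) * (x k * sg (e k))) *
      (cas D i j * cas D i k) = if j = k then y j * x k else 0 := by
    intro k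
    rw [← Finset.mul_sum]
    have h3 : ∑ i, cas D i j * cas D i k = if j = k then (D : ℝ) else 0 := by
      rw [← sum_cas D j k]
      apply Finset.sum_congr rfl
      intro i _
      rw [cas_comm D i j, cas_comm D i k]
    rw [h3]
    split_ifs with hjk
    · subst hjk
      have := sg_sq (e j)
      have e1 : (D : ℝ)⁻¹ * (y j * sg (e j) * (x j * sg (e j))) * D =
          y j * x j * (sg (e j) * sg (e j)) * ((D : ℝ)⁻¹ * D) := by ring
      rw [e1, this, inv_mul_cancel₀ hD'.ne', mul_one, mul_one]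
    · rw [mul_zero]
  rw [Finset.sum_congr rfl (fun k _ => h2 k), Finset.sum_ite_eq]
  simp

lemma Umap_norm {D : ℕ} (e : Fin D → Bool) (x : EuclideanSpace ℝ (Fin D)) :
    ‖Umap e x‖ = ‖x‖ := by
  rw [← Real.sqrt_sq (norm_nonneg (Umap e x)), ← Real.sqrt_sq (norm_nonneg x),
    ← real_inner_self_eq_norm_sq, ← real_inner_self_eq_norm_sq, Umap_inner]

/-- the part of the square norm carried by the coordinates larger than `T / √D` -/
noncomputable def mass {D : ℕ} (T : ℝ) (v : EuclideanSpace ℝ (Fin D)) : ℝ :=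
  ∑ i, (if T < |Real.sqrt D * v i| then (v i) ^ 2 else 0)

lemma mass_nonneg {D : ℕ} (T : ℝ) (v : EuclideanSpace ℝ (Fin D)) : 0 ≤ mass T v := by
  apply Finset.sum_nonneg
  intro i _
  split_ifs <;> positivity

lemma sum_mass_le {D : ℕ} (x : EuclideanSpace ℝ (Fin D)) (hx : ‖x‖ = 1) (T : ℝ) (hT : 2 ≤ T) :
    ∑ e : Fin D → Bool, mass T (Umap e x) ≤ 2 ^ D * beta T := by
  rcases Nat.eq_zero_or_pos D with rfl | hD
  · exfalso
    have : x = 0 := Subsingleton.elim _ _
    rw [this, norm_zero] at hx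
    exact zero_ne_one hx
  have hD' : (0 : ℝ) < D := by exact_mod_cast hD
  have hsq : 0 < Real.sqrt D := Real.sqrt_pos.2 hD'
  have hnorm : ∑ j, (x j) ^ 2 = 1 := by
    rw [← EuclideanSpace.real_norm_sq_eq, hx, one_pow]
  unfold mass
  rw [Finset.sum_comm]
  have h1 : ∀ i : Fin D, ∑ e : Fin D → Bool,
      (if T < |Real.sqrt D * (Umap e x) i| then ((Umap e x) i) ^ 2 else 0) ≤
        (D : ℝ)⁻¹ * (2 ^ D * beta T) := by
    intro i
    have h2 := sum_sq_indicator_signs (fun j => cas D i j * x j) ?_ T hT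
    · have h3 : ∀ e : Fin D → Bool,
          (if T < |Real.sqrt D * (Umap e x) i| then ((Umap e x) i) ^ 2 else 0) =
          (D : ℝ)⁻¹ * (if T < |∑ j, cas D i j * x j * sg (e j)| then
            (∑ j, cas D i j * x j * sg (e j)) ^ 2 else 0) := by
        intro e
        have h4 : (Umap e x) i = (Real.sqrt D)⁻¹ * ∑ j, cas D i j * x j * sg (e j) := rfl
        have h5 : Real.sqrt D * (Umap e x) i = ∑ j, cas D i j * x j * sg (e j) := by
          rw [h4, ← mul_assoc, mul_inv_cancel₀ hsq.ne', one_mul]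
        rw [h5, h4, mul_pow, inv_pow, Real.sq_sqrt hD'.le, mul_ite, mul_zero]
      rw [Finset.sum_congr rfl (fun e _ => h3 e), ← Finset.mul_sum]
      exact mul_le_mul_of_nonneg_left h2 (by positivity)
    · calc ∑ j, (cas D i j * x j) ^ 2 ≤ ∑ j, 2 * (x j) ^ 2 := by
            apply Finset.sum_le_sum
            intro j _
            rw [mul_pow]
            exact mul_le_mul_of_nonneg_right (cas_sq_le D i j) (sq_nonneg _)
        _ = 2 := by rw [← Finset.mul_sum, hnorm, mul_one]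
  calc ∑ i, ∑ e : Fin D → Bool,
      (if T < |Real.sqrt D * (Umap e x) i| then ((Umap e x) i) ^ 2 else 0)
      ≤ ∑ i : Fin D, (D : ℝ)⁻¹ * (2 ^ D * beta T) := Finset.sum_le_sum fun i _ => h1 i
    _ = 2 ^ D * beta T := by
        rw [Finset.sum_const, Finset.card_univ, Fintype.card_fin, nsmul_eq_mul, ← mul_assoc,
          mul_inv_cancel₀ hD'.ne', one_mul]

/-- After an isometry at least half of the points of a code are flat. -/
lemma exists_flat {D : ℕ} {s : ℝ} {ι : Type*} [Fintype ι] {f : ι → EuclideanSpace ℝ (Fin D)}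
    (hf : Fam _ s f) (T : ℝ) (hT : 2 ≤ T) :
    ∃ g : ι → EuclideanSpace ℝ (Fin D), Fam _ s g ∧ (∀ i j, ⟪g i, g j⟫ = ⟪f i, f j⟫) ∧
      ∃ J : Finset ι, Fintype.card ι ≤ 2 * J.card ∧ ∀ i ∈ J, mass T (g i) ≤ 2 * beta T := by
  classical
  have h1 : ∑ e : Fin D → Bool, ∑ i, mass T (Umap e (f i)) ≤
      ∑ e : Fin D → Bool, (Fintype.card ι : ℝ) * beta T := by
    rw [Finset.sum_comm]
    calc ∑ i, ∑ e : Fin D → Bool, mass T (Umap e (f i)) ≤ ∑ i : ι, 2 ^ D * beta T :=
          Finset.sum_le_sum fun i _ => sum_mass_le (f i) (hf.norm i) T hT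
      _ = _ := by
          simp only [Finset.sum_const, Finset.card_univ, nsmul_eq_mul, Fintype.card_pi,
            Fintype.card_bool, Finset.prod_const, Fintype.card_fin]
          push_cast
          ring
  obtain ⟨e, -, he⟩ := Finset.exists_le_of_sum_le Finset.univ_nonempty h1
  refine ⟨fun i => Umap e (f i), ⟨fun i => by rw [Umap_norm, hf.norm], fun i j hij => by
    rw [Umap_inner]; exact hf.inner i j hij⟩, fun i j => Umap_inner e _ _,
    Finset.univ.filter fun i => mass T (Umap e (f i)) ≤ 2 * beta T, ?_, ?_⟩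
  · have hcard := Finset.card_filter_add_card_filter_not (s := (Finset.univ : Finset ι))
      (fun i => mass T (Umap e (f i)) ≤ 2 * beta T)
    rw [Finset.card_univ] at hcard
    set N1 := (Finset.univ.filter fun i => mass T (Umap e (f i)) ≤ 2 * beta T).card
    set N2 := (Finset.univ.filter fun i => ¬ mass T (Umap e (f i)) ≤ 2 * beta T).card with hN2
    have h2 : (N2 : ℝ) * (2 * beta T) ≤ (Fintype.card ι : ℝ) * beta T := by
      calc (N2 : ℝ) * (2 * beta T)
          = ∑ i ∈ Finset.univ.filter (fun i => ¬ mass T (Umap e (f i)) ≤ 2 * beta T),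
              2 * beta T := by rw [Finset.sum_const, nsmul_eq_mul]
        _ ≤ ∑ i ∈ Finset.univ.filter (fun i => ¬ mass T (Umap e (f i)) ≤ 2 * beta T),
              mass T (Umap e (f i)) := by
            apply Finset.sum_le_sum
            intro i hi
            rw [Finset.mem_filter] at hi
            exact (not_le.1 hi.2).le
        _ ≤ ∑ i, mass T (Umap e (f i)) := by
            apply Finset.sum_le_sum_of_subset_of_nonneg (Finset.filter_subset _ _)
            intro i _ _
            exact mass_nonneg _ _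
        _ ≤ _ := he
    have h3 : (N2 : ℝ) * 2 ≤ Fintype.card ι := by
      have hb := beta_pos T
      have : ((N2 : ℝ) * 2) * beta T ≤ (Fintype.card ι : ℝ) * beta T := by linarith
      exact le_of_mul_le_mul_right this hb
    have h4 : N2 * 2 ≤ Fintype.card ι := by exact_mod_cast h3
    omega
  · intro i hi
    exact (Finset.mem_filter.1 hi).2

lemma tail_le_mass {m k : ℕ} (T : ℝ) (hT : 0 ≤ T)
    (v : EuclideanSpace ℝ (Fin (m + k))) :
    ∑ j : Fin k, (v (Fin.natAdd m j)) ^ 2 ≤ k * T ^ 2 / (m + k : ℕ) + mass T v := by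
  rcases Nat.eq_zero_or_pos k with rfl | hk
  · simp only [Finset.univ_eq_empty, Finset.sum_empty, Nat.cast_zero, zero_mul, zero_div, zero_add]
    exact mass_nonneg T v
  have hD' : (0 : ℝ) < ((m + k : ℕ) : ℝ) := by exact_mod_cast (by omega : 0 < m + k)
  have h1 : ∀ j : Fin k, (v (Fin.natAdd m j)) ^ 2 ≤ T ^ 2 / (m + k : ℕ) +
      (if T < |Real.sqrt ((m + k : ℕ) : ℝ) * v (Fin.natAdd m j)| then
        (v (Fin.natAdd m j)) ^ 2 else 0) := by
    intro j
    split_ifs with h
    · have : 0 ≤ T ^ 2 / ((m + k : ℕ) : ℝ) := by positivity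
      linarith
    · push Not at h
      rw [add_zero, le_div_iff₀ hD']
      have h2 := sq_le_sq' (by linarith [abs_nonneg (Real.sqrt ((m + k : ℕ) : ℝ) *
        v (Fin.natAdd m j))]) h
      rw [sq_abs, mul_pow, Real.sq_sqrt hD'.le] at h2
      linarith
  calc ∑ j : Fin k, (v (Fin.natAdd m j)) ^ 2
      ≤ ∑ j : Fin k, (T ^ 2 / (m + k : ℕ) +
        (if T < |Real.sqrt ((m + k : ℕ) : ℝ) * v (Fin.natAdd m j)| then
          (v (Fin.natAdd m j)) ^ 2 else 0)) := Finset.sum_le_sum fun j _ => h1 j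
    _ ≤ k * T ^ 2 / (m + k : ℕ) + mass T v := by
        rw [Finset.sum_add_distrib, Finset.sum_const, Finset.card_univ, Fintype.card_fin,
          nsmul_eq_mul, mul_div_assoc]
        apply add_le_add le_rfl
        unfold mass
        rw [Fin.sum_univ_add]
        have : 0 ≤ ∑ i : Fin m, (if T < |Real.sqrt ((m + k : ℕ) : ℝ) * v (Fin.castAdd k i)| then
          (v (Fin.castAdd k i)) ^ 2 else 0) := by
          apply Finset.sum_nonneg
          intro i _
          split_ifs <;> positivity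
        linarith

/-- The puncturing inequality. -/
theorem puncture {m k : ℕ} {s' : ℝ} {φ : ℝ} (hφ0 : 0 < φ) (hφ : φ ≤ Real.pi / 2) {T γ : ℝ}
    (hT : 2 ≤ T) (hγ : k * T ^ 2 / (m + k : ℕ) + 2 * beta T ≤ γ) (hγ1 : γ < 1)
    (hs : s' + γ ≤ Real.cos φ * (1 - γ)) {ι : Type*} [Fintype ι]
    {f : ι → EuclideanSpace ℝ (Fin (m + k))} (hf : Fam _ s' f) :
    Fintype.card ι ≤ 2 * maxCode m φ := by
  classical
  have hπ : φ ≤ Real.pi := by linarith [Real.pi_pos]
  have hcos : 0 ≤ Real.cos φ := Real.cos_nonneg_of_neg_pi_div_two_le_of_le (by linarith) hφ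
  obtain ⟨g, hg, -, J, hJ, hmass⟩ := exists_flat hf T hT
  have htail : ∀ i ∈ J, ∑ j : Fin k, ((g i) (Fin.natAdd m j)) ^ 2 ≤ γ := by
    intro i hi
    refine (tail_le_mass T (by linarith) (g i)).trans (le_trans ?_ hγ)
    have := hmass i hi
    linarith
  let P : EuclideanSpace ℝ (Fin (m + k)) → EuclideanSpace ℝ (Fin m) :=
    fun v => WithLp.toLp 2 fun i => v (Fin.castAdd k i)
  have hP : ∀ v w : EuclideanSpace ℝ (Fin (m + k)), ⟪v, w⟫ = ⟪P v, P w⟫ +
      ∑ j : Fin k, w (Fin.natAdd m j) * v (Fin.natAdd m j) := by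
    intro v w
    simp only [PiLp.inner_apply, RCLike.inner_apply, conj_trivial, P]
    rw [Fin.sum_univ_add]
  have hnormsq : ∀ i ∈ J, 1 - γ ≤ ‖P (g i)‖ ^ 2 := by
    intro i hi
    have h1 := hP (g i) (g i)
    rw [real_inner_self_eq_norm_sq, real_inner_self_eq_norm_sq, hg.norm, one_pow] at h1
    have h2 := htail i hi
    have h3 : ∑ j : Fin k, (g i) (Fin.natAdd m j) * (g i) (Fin.natAdd m j) =
        ∑ j : Fin k, ((g i) (Fin.natAdd m j)) ^ 2 :=
      Finset.sum_congr rfl fun j _ => (sq _).symm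
    rw [h3] at h1
    linarith
  have hnorm0 : ∀ i ∈ J, 0 < ‖P (g i)‖ := by
    intro i hi
    have := hnormsq i hi
    by_contra hcon
    have h0 : ‖P (g i)‖ = 0 := le_antisymm (not_lt.1 hcon) (norm_nonneg _)
    rw [h0] at this
    norm_num at this
    linarith
  have hinner : ∀ i ∈ J, ∀ j ∈ J, i ≠ j → ⟪P (g i), P (g j)⟫ ≤ s' + γ := by
    intro i hi j hj hij
    have h1 := hP (g i) (g j)
    have h2 := hg.inner i j hij
    have h3 : -∑ l : Fin k, (g j) (Fin.natAdd m l) * (g i) (Fin.natAdd m l) ≤ γ := by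
      have h4 := htail i hi
      have h5 := htail j hj
      have h6 : ∑ l : Fin k, -((g j) (Fin.natAdd m l) * (g i) (Fin.natAdd m l)) ≤
          ∑ l : Fin k, (((g i) (Fin.natAdd m l)) ^ 2 / 2 + ((g j) (Fin.natAdd m l)) ^ 2 / 2) := by
        apply Finset.sum_le_sum
        intro l _
        nlinarith [sq_nonneg ((g i) (Fin.natAdd m l) + (g j) (Fin.natAdd m l))]
      rw [Finset.sum_neg_distrib, Finset.sum_add_distrib, ← Finset.sum_div, ← Finset.sum_div] at h6
      linarith
    linarith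
  have hfam : Fam (EuclideanSpace ℝ (Fin m)) (Real.cos φ)
      (fun i : J => (‖P (g i)‖)⁻¹ • P (g i)) := by
    constructor
    · rintro ⟨i, hi⟩
      rw [norm_smul, norm_inv, norm_norm, inv_mul_cancel₀ (hnorm0 i hi).ne']
    · rintro ⟨i, hi⟩ ⟨j, hj⟩ hij
      have hne : i ≠ j := fun h => hij (Subtype.ext h)
      rw [real_inner_smul_left, real_inner_smul_right, ← mul_assoc, ← mul_inv]
      have h1 := hnorm0 i hi
      have h2 := hnorm0 j hj
      rw [inv_mul_le_iff₀ (by positivity)]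
      have h3 := hinner i hi j hj hne
      have h4 : 1 - γ ≤ ‖P (g i)‖ * ‖P (g j)‖ := by
        have h5 := hnormsq i hi
        have h6 := hnormsq j hj
        have h7 : (1 - γ) ^ 2 ≤ (‖P (g i)‖ * ‖P (g j)‖) ^ 2 := by
          rw [mul_pow, sq]
          exact mul_le_mul h5 h6 (by linarith) (by positivity)
        exact le_of_sq_le_sq h7 (by positivity)
      calc ⟪P (g i), P (g j)⟫ ≤ s' + γ := h3
        _ ≤ Real.cos φ * (1 - γ) := hs
        _ ≤ Real.cos φ * (‖P (g i)‖ * ‖P (g j)‖) := mul_le_mul_of_nonneg_left h4 hcos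
        _ = _ := mul_comm _ _
  have h1 := hfam.card_le_maxCode (d := m) (by simp) hφ0 hπ
  rw [Fintype.card_coe] at h1
  omega

end Pool.Agent.Helper59.Kiss
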