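import Pool.Agent.Helper59.Kiss.Windows

open Filter MeasureTheory InnerProductGeometry ProbabilityTheory
open scoped RealInnerProductSpace Topology

namespace Pool.Agent.Helper59.Kiss

/-- Quantitative version of `slice_algebra`. -/
lemma slice_algebra' {s h h' q κ t : ℝ} (hs0 : 0 < s) (hs1 : s < 1) (hh : 0 < h) (hh' : 0 < h')
    (h1 : s * h ≤ h') (h2 : s * h' ≤ h) (hb : h < 1) (hb' : h' < 1) (hq : q ≤ s)
    (ht : t ^ 2 ≤ h * h') (hκ0 : 0 ≤ κ) (hκ : 2 * κ ≤ (1 - s ^ 2) * t ^ 2) (hκs : κ ≤ s) :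
    q - h * h' ≤ (s - κ) * (Real.sqrt (1 - h ^ 2) * Real.sqrt (1 - h' ^ 2)) := by
  have e1 : 0 < 1 - h ^ 2 := by nlinarith
  have e2 : 0 < 1 - h' ^ 2 := by nlinarith
  rw [← Real.sqrt_mul e1.le]
  rcases le_or_gt s (h * h') with h3 | h3
  · have : 0 ≤ (s - κ) * Real.sqrt ((1 - h ^ 2) * (1 - h' ^ 2)) :=
      mul_nonneg (by linarith) (Real.sqrt_nonneg _)
    linarith
  · set u := h * h' with hu
    have hu0 : 0 < u := mul_pos hh hh'
    have h5 : 0 ≤ (h' - s * h) * (h - s * h') := mul_nonneg (by linarith) (by linarith)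
    have h6 : s * (h ^ 2 + h' ^ 2) ≤ (1 + s ^ 2) * u := by rw [hu]; nlinarith
    have h8 : 0 < 1 - s ^ 2 := by nlinarith
    have hsu : 0 < 1 - s * u := by nlinarith
    -- `s (1 - h²)(1 - h'²) ≥ (s - u)(1 - s u)`
    have h7 : (s - u) * (1 - s * u) ≤ s * ((1 - h ^ 2) * (1 - h' ^ 2)) := by
      have : h ^ 2 * h' ^ 2 = u ^ 2 := by rw [hu]; ring
      nlinarith
    -- `s (s - u) ≤ (s - κ)² (1 - s u)`
    have h9 : s * (s - u) ≤ (s - κ) ^ 2 * (1 - s * u) := by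
      have h10 : 2 * κ ≤ (1 - s ^ 2) * u := hκ.trans (mul_le_mul_of_nonneg_left ht h8.le)
      have h11 : 2 * κ * (1 - s * u) ≤ (1 - s ^ 2) * u := by
        have : 2 * κ * (1 - s * u) ≤ 2 * κ := by
          have : 0 ≤ 2 * κ * (s * u) := by positivity
          linarith
        linarith
      have h12 : s * (2 * κ * (1 - s * u)) ≤ s * ((1 - s ^ 2) * u) :=
        mul_le_mul_of_nonneg_left h11 hs0.le
      have h13 : 0 ≤ κ ^ 2 * (1 - s * u) := by positivity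
      nlinarith
    have h4 : (s - u) ^ 2 ≤ (s - κ) ^ 2 * ((1 - h ^ 2) * (1 - h' ^ 2)) := by
      have h10 : s * (s - u) ^ 2 ≤ s * ((s - κ) ^ 2 * ((1 - h ^ 2) * (1 - h' ^ 2))) := by
        calc s * (s - u) ^ 2 = (s * (s - u)) * (s - u) := by ring
          _ ≤ ((s - κ) ^ 2 * (1 - s * u)) * (s - u) :=
              mul_le_mul_of_nonneg_right h9 (by linarith)
          _ = (s - κ) ^ 2 * ((s - u) * (1 - s * u)) := by ring
          _ ≤ (s - κ) ^ 2 * (s * ((1 - h ^ 2) * (1 - h' ^ 2))) :=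
              mul_le_mul_of_nonneg_left h7 (sq_nonneg _)
          _ = _ := by ring
      exact le_of_mul_le_mul_left h10 hs0
    have h5 : s - u ≤ (s - κ) * Real.sqrt ((1 - h ^ 2) * (1 - h' ^ 2)) := by
      apply le_of_sq_le_sq _ (mul_nonneg (by linarith) (Real.sqrt_nonneg _))
      rw [mul_pow, Real.sq_sqrt (by positivity)]
      exact h4
    linarith

/-- Projection of a slice at positive height: the separation increases. -/
lemma slice' {d : ℕ} {s : ℝ} (hs0 : 0 < s) (hs1 : s < 1) {κ t : ℝ} (ht : 0 < t) (hκ0 : 0 ≤ κ)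
    (hκ : 2 * κ ≤ (1 - s ^ 2) * t ^ 2) (hκs : κ ≤ s)
    {ι : Type*} [Fintype ι] {f : ι → EuclideanSpace ℝ (Fin (d + 1))}
    (hf : Fam _ s f) (g : EuclideanSpace ℝ (Fin (d + 1))) (hg1 : ‖g‖ ≤ 1)
    (J : Finset ι) (hJ : ∀ i ∈ J, t ≤ ⟪f i, g⟫ ∧ ⟪f i, g⟫ < t / s) (hJ2 : 2 ≤ J.card) :
    ∃ F : J → EuclideanSpace ℝ (Fin (d + 1)), Fam _ (s - κ) F := by
  classical
  obtain ⟨i₀, hi₀⟩ : J.Nonempty := Finset.card_pos.1 (by omega)
  have hg : g ≠ 0 := by
    rintro rfl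
    have := (hJ i₀ hi₀).1
    rw [inner_zero_right] at this
    linarith
  have hgn : 0 < ‖g‖ := norm_pos_iff.2 hg
  set e := (‖g‖)⁻¹ • g with he
  have hen : ‖e‖ = 1 := by
    rw [he, norm_smul, norm_inv, norm_norm, inv_mul_cancel₀ hgn.ne']
  have hheight : ∀ i, ⟪f i, e⟫ = ⟪f i, g⟫ / ‖g‖ := by
    intro i
    rw [he, real_inner_smul_right]
    field_simp
  have hge : ∀ i ∈ J, t ≤ ⟪f i, e⟫ := by
    intro i hi
    rw [hheight, le_div_iff₀ hgn]
    have h1 := (hJ i hi).1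
    nlinarith
  have hpos : ∀ i ∈ J, 0 < ⟪f i, e⟫ := fun i hi => ht.trans_le (hge i hi)
  have hratio : ∀ i ∈ J, ∀ j ∈ J, s * ⟪f i, e⟫ < ⟪f j, e⟫ := by
    intro i hi j hj
    rw [hheight, hheight, mul_div_assoc', div_lt_div_iff_of_pos_right hgn]
    have h1 := (hJ i hi).2
    have h2 := (hJ j hj).1
    rw [lt_div_iff₀ hs0] at h1
    linarith
  clear_value e
  have hle1 : ∀ i, ⟪f i, e⟫ ≤ 1 := by
    intro i
    have := real_inner_le_norm (f i) e
    rw [hf.norm, hen, mul_one] at this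
    exact this
  have hlt1 : ∀ i ∈ J, ⟪f i, e⟫ < 1 := by
    intro i hi
    refine lt_of_le_of_ne (hle1 i) fun hi1 => ?_
    have hfe : f i = e := (inner_eq_one_iff_of_norm_eq_one (hf.norm i) hen).1 hi1
    obtain ⟨j, hj, hne⟩ := Finset.exists_mem_ne (by omega : 1 < J.card) i
    have h1 := hf.inner j i hne
    have h2 := hratio i hi j hj
    rw [hi1, mul_one, ← hfe] at h2
    linarith
  let w : ι → EuclideanSpace ℝ (Fin (d + 1)) := fun i => f i - ⟪f i, e⟫ • e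
  have hww : ∀ i j, ⟪w i, w j⟫ = ⟪f i, f j⟫ - ⟪f i, e⟫ * ⟪f j, e⟫ := by
    intro i j
    change ⟪f i - ⟪f i, e⟫ • e, f j - ⟪f j, e⟫ • e⟫ = _
    rw [inner_sub_left, inner_sub_right, inner_sub_right, real_inner_smul_left,
      real_inner_smul_right, real_inner_smul_left, real_inner_smul_right,
      real_inner_self_eq_norm_sq, hen, real_inner_comm (f j) e]
    ring
  have hwn : ∀ i, ‖w i‖ = Real.sqrt (1 - ⟪f i, e⟫ ^ 2) := by
    intro i
    rw [← Real.sqrt_sq (norm_nonneg (w i)), ← real_inner_self_eq_norm_sq, hww,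
      real_inner_self_eq_norm_sq, hf.norm]
    congr 1
    ring
  have hwpos : ∀ i ∈ J, 0 < ‖w i‖ := by
    intro i hi
    rw [hwn]
    apply Real.sqrt_pos.2
    have h1 := hlt1 i hi
    have h2 := hpos i hi
    nlinarith
  refine ⟨fun i : J => (‖w i‖)⁻¹ • w i, ?_, ?_⟩
  · rintro ⟨i, hi⟩
    rw [norm_smul, norm_inv, norm_norm, inv_mul_cancel₀ (hwpos i hi).ne']
  · rintro ⟨i, hi⟩ ⟨j, hj⟩ hij
    have hne : i ≠ j := fun h => hij (Subtype.ext h)
    rw [real_inner_smul_left, real_inner_smul_right, ← mul_assoc, ← mul_inv]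
    have h1 := hwpos i hi
    have h2 := hwpos j hj
    change (‖w i‖ * ‖w j‖)⁻¹ * ⟪w i, w j⟫ ≤ s - κ
    rw [inv_mul_le_iff₀ (by positivity), hww, hwn i, hwn j]
    rw [mul_comm (Real.sqrt (1 - ⟪f i, e⟫ ^ 2) * Real.sqrt (1 - ⟪f j, e⟫ ^ 2))]
    refine slice_algebra' hs0 hs1 (hpos i hi) (hpos j hj) (hratio i hi j hj).le
      (hratio j hj i hi).le (hlt1 i hi) (hlt1 j hj) (hf.inner i j hne) ?_ hκ0 hκ hκs
    rw [sq]
    exact mul_le_mul (hge i hi) (hge j hj) ht.le (hpos i hi).le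

/-- volume of the slice of the unit ball -/
lemma volume_slice {d : ℕ} (x : EuclideanSpace ℝ (Fin d)) (hx : ‖x‖ = 1) {c δ ρ : ℝ}
    (hδ : 0 < δ) (hρ : 0 < ρ) (hδρ : δ < ρ) (hc : 0 ≤ c) (hle : ρ ^ 2 + 2 * c * δ + c ^ 2 ≤ 1)
    (hbig : 4 * Real.sqrt (ρ ^ 2 - δ ^ 2) ^ d ≤ ρ ^ d) :
    ENNReal.ofReal (ρ ^ d / 2) * volume (Metric.ball (0 : EuclideanSpace ℝ (Fin d)) 1) ≤
      volume ({e | c - δ ≤ ⟪x, e⟫ ∧ ⟪x, e⟫ < c + δ} ∩
        Metric.closedBall (0 : EuclideanSpace ℝ (Fin d)) 1) := by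
  have hball : ∀ (x : EuclideanSpace ℝ (Fin d)) (t : ℝ), 0 < t → volume (Metric.ball x t) =
      ENNReal.ofReal (t ^ d) * volume (Metric.ball (0 : EuclideanSpace ℝ (Fin d)) 1) := by
    intro x t ht
    rw [Measure.addHaar_ball_of_pos _ _ ht]
    simp
  set V := volume (Metric.ball (0 : EuclideanSpace ℝ (Fin d)) 1) with hV
  have hVt : V ≠ ⊤ := measure_ball_lt_top.ne
  set r := Real.sqrt (ρ ^ 2 - δ ^ 2) with hr
  have hr2 : 0 < ρ ^ 2 - δ ^ 2 := by nlinarith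
  have hr0 : 0 < r := Real.sqrt_pos.2 hr2
  have hrsq : r ^ 2 = ρ ^ 2 - δ ^ 2 := Real.sq_sqrt hr2.le
  have hxx : ⟪x, x⟫ = 1 := by rw [real_inner_self_eq_norm_sq, hx, one_pow]
  have hnt : Nontrivial (EuclideanSpace ℝ (Fin d)) := ⟨⟨x, 0, by
    rintro rfl
    rw [norm_zero] at hx
    exact zero_ne_one hx⟩⟩
  -- the big ball is covered by the slice and two small closed balls
  have hcov : Metric.ball (c • x) ρ ⊆
      ({e | c - δ ≤ ⟪x, e⟫ ∧ ⟪x, e⟫ < c + δ} ∩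
        Metric.closedBall (0 : EuclideanSpace ℝ (Fin d)) 1) ∪
      (Metric.closedBall ((c + δ) • x) r ∪ Metric.closedBall ((c - δ) • x) r) := by
    intro e he
    rw [Metric.mem_ball, dist_eq_norm] at he
    have h1 : ‖e - c • x‖ ^ 2 < ρ ^ 2 := pow_lt_pow_left₀ he (norm_nonneg _) two_ne_zero
    have h2 : ‖e - c • x‖ ^ 2 = ‖e‖ ^ 2 - 2 * c * ⟪x, e⟫ + c ^ 2 := by
      rw [norm_sub_sq_real, real_inner_smul_right, norm_smul, hx, mul_one, real_inner_comm,
        Real.norm_eq_abs, sq_abs]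
      ring
    have h3 : ∀ b : ℝ, ‖e - b • x‖ ^ 2 = ‖e‖ ^ 2 - 2 * b * ⟪x, e⟫ + b ^ 2 := by
      intro b
      rw [norm_sub_sq_real, real_inner_smul_right, norm_smul, hx, mul_one, real_inner_comm,
        Real.norm_eq_abs, sq_abs]
      ring
    by_cases h4 : c + δ ≤ ⟪x, e⟫
    · right; left
      rw [Metric.mem_closedBall, dist_eq_norm]
      apply le_of_sq_le_sq _ hr0.le
      rw [h3, hrsq]
      nlinarith
    · by_cases h5 : ⟪x, e⟫ < c - δ
      · right; right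
        rw [Metric.mem_closedBall, dist_eq_norm]
        apply le_of_sq_le_sq _ hr0.le
        rw [h3, hrsq]
        nlinarith
      · left
        push Not at h4 h5
        refine ⟨⟨h5, h4⟩, ?_⟩
        rw [Metric.mem_closedBall, dist_zero_right]
        apply le_of_sq_le_sq _ zero_le_one
        rw [one_pow]
        nlinarith
  have hm := measure_mono (μ := volume) hcov
  have hm2 := hm.trans ((measure_union_le _ _).trans (add_le_add le_rfl (measure_union_le _ _)))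
  rw [hball _ _ hρ, Measure.addHaar_closedBall_eq_addHaar_ball,
    Measure.addHaar_closedBall_eq_addHaar_ball, hball _ _ hr0, hball _ _ hr0] at hm2
  set Q := volume ({e | c - δ ≤ ⟪x, e⟫ ∧ ⟪x, e⟫ < c + δ} ∩
        Metric.closedBall (0 : EuclideanSpace ℝ (Fin d)) 1) with hQ
  have hQt : Q ≠ ⊤ := by
    refine ne_top_of_le_ne_top ?_ (measure_mono Set.inter_subset_right)
    exact measure_closedBall_lt_top.ne
  -- pass to real numbers
  rw [← ENNReal.ofReal_toReal hVt, ← ENNReal.ofReal_toReal hQt] at hm2 ⊢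
  rw [← ENNReal.ofReal_mul (by positivity), ← ENNReal.ofReal_mul (by positivity),
    ← ENNReal.ofReal_add (by positivity) (by positivity),
    ← ENNReal.ofReal_add (by positivity) (by positivity),
    ENNReal.ofReal_le_ofReal_iff (by positivity)] at hm2
  rw [← ENNReal.ofReal_mul (by positivity)]
  apply ENNReal.ofReal_le_ofReal
  have hV0 : 0 ≤ V.toReal := ENNReal.toReal_nonneg
  have h6 : 4 * r ^ d * V.toReal ≤ ρ ^ d * V.toReal := mul_le_mul_of_nonneg_right hbig hV0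
  linarith

/-- Passing to a large subcode with larger separation. -/
lemma gap {d : ℕ} {s κ t ρ : ℝ} (hs0 : 0 < s) (hs1 : s < 1) (ht : 0 < t) (hκ0 : 0 ≤ κ)
    (hκ : 2 * κ ≤ (1 - s ^ 2) * t ^ 2) (hκs : κ ≤ s) (hρ : 0 < ρ)
    (hδρ : (1 / s - 1) * t / 2 < ρ)
    (hle : ρ ^ 2 + 2 * ((1 + 1 / s) * t / 2) * ((1 / s - 1) * t / 2) +
      ((1 + 1 / s) * t / 2) ^ 2 ≤ 1)
    (hbig : 4 * Real.sqrt (ρ ^ 2 - ((1 / s - 1) * t / 2) ^ 2) ^ (d + 1) ≤ ρ ^ (d + 1))
    {ι : Type*} [Fintype ι] {f : ι → EuclideanSpace ℝ (Fin (d + 1))} (hf : Fam _ s f) :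
    ∃ (J : Finset ι) (F : J → EuclideanSpace ℝ (Fin (d + 1))), Fam _ (s - κ) F ∧
      (Fintype.card ι : ℝ) * (ρ ^ (d + 1) / 2) ≤ J.card := by
  classical
  set c := (1 + 1 / s) * t / 2 with hc
  set δ := (1 / s - 1) * t / 2 with hδ
  have hs2 : 1 < 1 / s := (one_lt_div hs0).2 hs1
  have hδ0 : 0 < δ := by
    rw [hδ]
    have : 0 < 1 / s - 1 := by linarith
    positivity
  have hc0 : 0 ≤ c := by rw [hc]; positivity
  have ecδ : c - δ = t := by rw [hc, hδ]; ring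
  have ecδ' : c + δ = t / s := by rw [hc, hδ]; ring
  let J : EuclideanSpace ℝ (Fin (d + 1)) → Finset ι := fun e =>
    Finset.univ.filter fun i => c - δ ≤ ⟪f i, e⟫ ∧ ⟪f i, e⟫ < c + δ
  have hbdd : BddAbove {n : ℕ | ∃ e ∈ Metric.closedBall (0 : EuclideanSpace ℝ (Fin (d + 1))) 1,
      (J e).card = n} := ⟨Fintype.card ι, by
    rintro n ⟨e, -, rfl⟩
    exact Finset.card_le_univ _⟩
  have hne : {n : ℕ | ∃ e ∈ Metric.closedBall (0 : EuclideanSpace ℝ (Fin (d + 1))) 1,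
      (J e).card = n}.Nonempty := ⟨_, 0, by simp, rfl⟩
  obtain ⟨e, he, hem⟩ := Nat.sSup_mem hne hbdd
  set m := sSup {n : ℕ | ∃ e ∈ Metric.closedBall (0 : EuclideanSpace ℝ (Fin (d + 1))) 1,
      (J e).card = n} with hm
  have hmax : ∀ e' ∈ Metric.closedBall (0 : EuclideanSpace ℝ (Fin (d + 1))) 1,
      (J e').card ≤ m := fun e' he' => le_csSup hbdd ⟨e', he', rfl⟩
  -- the averaging argument
  set B := Metric.closedBall (0 : EuclideanSpace ℝ (Fin (d + 1))) 1 with hB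
  set V := volume (Metric.ball (0 : EuclideanSpace ℝ (Fin (d + 1))) 1) with hV
  have hVt : V ≠ ⊤ := measure_ball_lt_top.ne
  have hV0 : V ≠ 0 := (Metric.measure_ball_pos _ _ one_pos).ne'
  have hBV : volume B = V := by
    rw [hB, Measure.addHaar_closedBall_eq_addHaar_ball]
  have hmeas : ∀ i, MeasurableSet {e | c - δ ≤ ⟪f i, e⟫ ∧ ⟪f i, e⟫ < c + δ} := by
    intro i
    have h1 : Measurable fun e => ⟪f i, e⟫ := (innerSL ℝ (f i)).continuous.measurable
    exact h1 measurableSet_Ico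
  have h1 : ∑ i, volume ({e | c - δ ≤ ⟪f i, e⟫ ∧ ⟪f i, e⟫ < c + δ} ∩ B) ≤ m * V := by
    have h2 : ∑ i, volume ({e | c - δ ≤ ⟪f i, e⟫ ∧ ⟪f i, e⟫ < c + δ} ∩ B) =
        ∫⁻ e in B, ∑ i, ({e | c - δ ≤ ⟪f i, e⟫ ∧ ⟪f i, e⟫ < c + δ} : Set _).indicator
          (fun _ => (1 : ENNReal)) e := by
      rw [lintegral_finsetSum]
      · apply Finset.sum_congr rfl
        intro i _
        rw [lintegral_indicator (hmeas i), lintegral_const, one_mul, Measure.restrict_apply_univ,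
          Measure.restrict_apply (hmeas i)]
      · intro i _
        exact measurable_const.indicator (hmeas i)
    rw [h2, ← hBV, ← setLIntegral_const]
    apply setLIntegral_mono' Metric.isClosed_closedBall.measurableSet
    intro e' he'
    have h5 : ∑ i, ({e | c - δ ≤ ⟪f i, e⟫ ∧ ⟪f i, e⟫ < c + δ} : Set _).indicator
          (fun _ => (1 : ENNReal)) e' = ((J e').card : ENNReal) := by
      rw [Finset.card_filter]
      push_cast
      apply Finset.sum_congr rfl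
      intro i _
      rw [Set.indicator_apply]
      rfl
    rw [h5]
    exact_mod_cast hmax e' he'
  have h2 : ∑ i : ι, ENNReal.ofReal (ρ ^ (d + 1) / 2) * V ≤
      ∑ i, volume ({e | c - δ ≤ ⟪f i, e⟫ ∧ ⟪f i, e⟫ < c + δ} ∩ B) :=
    Finset.sum_le_sum fun i _ => volume_slice (f i) (hf.norm i) hδ0 hρ hδρ hc0 hle hbig
  have h3 := h2.trans h1
  rw [Finset.sum_const, Finset.card_univ, nsmul_eq_mul, ← mul_assoc,
    ENNReal.mul_le_mul_iff_left hV0 hVt, ← ENNReal.ofReal_natCast, ← ENNReal.ofReal_natCast,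
    ← ENNReal.ofReal_mul (by positivity), ENNReal.ofReal_le_ofReal_iff (by positivity)] at h3
  by_cases h4 : 2 ≤ (J e).card
  · obtain ⟨F, hF⟩ := slice' hs0 hs1 ht hκ0 hκ hκs hf e
      (by rw [← dist_zero_right]; exact Metric.mem_closedBall.1 he) (J e) (by
      intro i hi
      have := (Finset.mem_filter.1 hi).2
      rw [ecδ, ecδ'] at this
      exact this) h4
    exact ⟨J e, F, hF, by rw [hem]; exact h3⟩
  · refine ⟨J e, fun i => f i, ⟨fun i => hf.norm i, ?_⟩, by rw [hem]; exact h3⟩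
    intro i j hij
    exfalso
    have : 1 < (J e).card := Finset.one_lt_card.2 ⟨i, i.2, j, j.2, fun h => hij (Subtype.ext h)⟩
    omega

end Pool.Agent.Helper59.Kiss
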