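import Pool.Agent.Helper59.Kiss.Basic

open Filter MeasureTheory
open scoped RealInnerProductSpace

namespace Pool.Agent.Helper59.Kiss

/-! ### The Hartley matrix -/

lemma sum_exp (D : ℕ) (hD : D ≠ 0) (n : ℤ) :
    ∑ k : Fin D, Complex.exp (2 * Real.pi * Complex.I * n * (k : ℕ) / D) =
      if (D : ℤ) ∣ n then (D : ℂ) else 0 := by
  have hprim := Complex.isPrimitiveRoot_exp D hD
  set ζ := Complex.exp (2 * Real.pi * Complex.I / D) with hζ
  have h1 : ∀ k : Fin D, Complex.exp (2 * Real.pi * Complex.I * n * (k : ℕ) / D) =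
      (ζ ^ n) ^ (k : ℕ) := by
    intro k
    rw [hζ, ← Complex.exp_int_mul, ← Complex.exp_nat_mul]
    congr 1
    ring
  simp only [h1]
  rw [Fin.sum_univ_eq_sum_range (fun k => (ζ ^ n) ^ k)]
  split_ifs with h
  · rw [(hprim.zpow_eq_one_iff_dvd n).2 h]
    simp
  · have hne : ζ ^ n ≠ 1 := fun h' => h ((hprim.zpow_eq_one_iff_dvd n).1 h')
    rw [geom_sum_eq hne]
    have : (ζ ^ n) ^ D = 1 := by
      rw [← zpow_natCast, ← zpow_mul, mul_comm, zpow_mul, zpow_natCast, hprim.pow_eq_one, one_zpow]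
    rw [this, sub_self, zero_div]

lemma sum_cos (D : ℕ) (hD : D ≠ 0) (n : ℤ) :
    ∑ k : Fin D, Real.cos (2 * Real.pi * n * (k : ℕ) / D) = if (D : ℤ) ∣ n then (D : ℝ) else 0 := by
  have h := congrArg Complex.re (sum_exp D hD n)
  rw [Complex.re_sum] at h
  have h1 : ∀ k : Fin D, (Complex.exp (2 * Real.pi * Complex.I * n * (k : ℕ) / D)).re =
      Real.cos (2 * Real.pi * n * (k : ℕ) / D) := by
    intro k
    have : (2 * Real.pi * Complex.I * n * (k : ℕ) / D : ℂ) =
        ((2 * Real.pi * n * (k : ℕ) / D : ℝ) : ℂ) * Complex.I := by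
      push_cast; ring
    rw [this, Complex.exp_ofReal_mul_I_re]
  rw [Finset.sum_congr rfl (fun k _ => h1 k)] at h
  rw [h]
  split_ifs <;> simp

lemma sum_sin (D : ℕ) (hD : D ≠ 0) (n : ℤ) :
    ∑ k : Fin D, Real.sin (2 * Real.pi * n * (k : ℕ) / D) = 0 := by
  have h := congrArg Complex.im (sum_exp D hD n)
  rw [Complex.im_sum] at h
  have h1 : ∀ k : Fin D, (Complex.exp (2 * Real.pi * Complex.I * n * (k : ℕ) / D)).im =
      Real.sin (2 * Real.pi * n * (k : ℕ) / D) := by
    intro k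
    have : (2 * Real.pi * Complex.I * n * (k : ℕ) / D : ℂ) =
        ((2 * Real.pi * n * (k : ℕ) / D : ℝ) : ℂ) * Complex.I := by
      push_cast; ring
    rw [this, Complex.exp_ofReal_mul_I_im]
  rw [Finset.sum_congr rfl (fun k _ => h1 k)] at h
  rw [h]
  split_ifs <;> simp

/-- The Hartley matrix (unnormalised) -/
noncomputable def cas (D : ℕ) (j k : Fin D) : ℝ :=
  Real.cos (2 * Real.pi * (j : ℕ) * (k : ℕ) / D) + Real.sin (2 * Real.pi * (j : ℕ) * (k : ℕ) / D)

lemma cas_sq_le (D : ℕ) (j k : Fin D) : cas D j k ^ 2 ≤ 2 := by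
  unfold cas
  nlinarith [Real.sin_sq_add_cos_sq (2 * Real.pi * (j : ℕ) * (k : ℕ) / D),
    sq_nonneg (Real.cos (2 * Real.pi * (j : ℕ) * (k : ℕ) / D) -
      Real.sin (2 * Real.pi * (j : ℕ) * (k : ℕ) / D))]

lemma cas_comm (D : ℕ) (j k : Fin D) : cas D j k = cas D k j := by
  unfold cas
  rw [mul_right_comm]

lemma sum_cas (D : ℕ) (j l : Fin D) :
    ∑ k, cas D j k * cas D l k = if j = l then (D : ℝ) else 0 := by
  have hD : D ≠ 0 := by
    rintro rfl
    exact j.elim0
  have h1 : ∀ k : Fin D, cas D j k * cas D l k =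
      Real.cos (2 * Real.pi * (((j : ℕ) : ℤ) - ((l : ℕ) : ℤ) : ℤ) * (k : ℕ) / D) +
      Real.sin (2 * Real.pi * (((j : ℕ) : ℤ) + ((l : ℕ) : ℤ) : ℤ) * (k : ℕ) / D) := by
    intro k
    have e1 : 2 * Real.pi * (((((j : ℕ) : ℤ) - ((l : ℕ) : ℤ) : ℤ)) : ℝ) * ((k : ℕ) : ℝ) / D =
        2 * Real.pi * (j : ℕ) * (k : ℕ) / D - 2 * Real.pi * (l : ℕ) * (k : ℕ) / D := by
      push_cast; ring
    have e2 : 2 * Real.pi * (((((j : ℕ) : ℤ) + ((l : ℕ) : ℤ) : ℤ)) : ℝ) * ((k : ℕ) : ℝ) / D =
        2 * Real.pi * (j : ℕ) * (k : ℕ) / D + 2 * Real.pi * (l : ℕ) * (k : ℕ) / D := by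
      push_cast; ring
    rw [e1, e2, Real.cos_sub, Real.sin_add]
    unfold cas
    ring
  rw [Finset.sum_congr rfl (fun k _ => h1 k), Finset.sum_add_distrib, sum_cos D hD, sum_sin D hD,
    add_zero]
  have h2 : (D : ℤ) ∣ ((j : ℕ) : ℤ) - ((l : ℕ) : ℤ) ↔ j = l := by
    constructor
    · intro h
      have h3 := Int.eq_zero_of_abs_lt_dvd h (by
        rw [abs_lt]
        have := j.2
        have := l.2
        constructor <;> omega)
      apply Fin.ext
      omega
    · rintro rfl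
      simp
  simp only [h2]

/-! ### Random signs -/

/-- sign -/
def sg (b : Bool) : ℝ := if b then 1 else -1

lemma sg_sq (b : Bool) : sg b * sg b = 1 := by
  cases b <;> simp [sg]

lemma sum_exp_signs {D : ℕ} (a : Fin D → ℝ) (lam : ℝ) :
    ∑ e : Fin D → Bool, Real.exp (lam * ∑ j, a j * sg (e j)) ≤
      2 ^ D * Real.exp (lam ^ 2 * (∑ j, a j ^ 2) / 2) := by
  have h1 : ∀ e : Fin D → Bool, Real.exp (lam * ∑ j, a j * sg (e j)) =
      ∏ j, Real.exp (lam * a j * sg (e j)) := by
    intro e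
    rw [← Real.exp_sum, Finset.mul_sum]
    congr 1
    apply Finset.sum_congr rfl
    intro j _
    ring
  simp only [h1]
  have h2 := Finset.prod_univ_sum (fun _ : Fin D => (Finset.univ : Finset Bool))
    (fun j b => Real.exp (lam * a j * sg b))
  rw [Fintype.piFinset_univ] at h2
  rw [← h2]
  have h3 : ∀ j, ∑ b : Bool, Real.exp (lam * a j * sg b) ≤ 2 * Real.exp ((lam * a j) ^ 2 / 2) := by
    intro j
    rw [Fintype.sum_bool]
    have := Real.cosh_le_exp_half_sq (lam * a j)
    rw [Real.cosh_eq] at this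
    simp only [sg, if_true, mul_one]
    have e : lam * a j * (if false = true then (1 : ℝ) else -1) = -(lam * a j) := by simp
    rw [e]
    linarith
  calc ∏ j, ∑ b : Bool, Real.exp (lam * a j * sg b)
      ≤ ∏ j : Fin D, (2 * Real.exp ((lam * a j) ^ 2 / 2)) := by
        apply Finset.prod_le_prod
        · intro j _
          positivity
        · intro j _
          exact h3 j
    _ = 2 ^ D * Real.exp (lam ^ 2 * (∑ j, a j ^ 2) / 2) := by
        rw [Finset.prod_mul_distrib, Finset.prod_const, Finset.card_univ, Fintype.card_fin,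
          ← Real.exp_sum]
        congr 2
        rw [← Finset.sum_div, Finset.mul_sum]
        congr 1
        apply Finset.sum_congr rfl
        intro j _
        ring

lemma sq_indicator_le (y T lam : ℝ) (hlam : 0 ≤ lam) :
    (if T < |y| then y ^ 2 else 0) ≤
      2 * Real.exp (-(lam * T)) * (Real.exp ((1 + lam) * y) + Real.exp (-(1 + lam) * y)) := by
  split_ifs with h
  · have h1 : y ^ 2 ≤ 2 * Real.exp |y| := by
      have := Real.quadratic_le_exp_of_nonneg (abs_nonneg y)
      have h2 := sq_abs y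
      nlinarith [abs_nonneg y]
    have h2 : Real.exp |y| ≤ Real.exp (-(lam * T)) * Real.exp ((1 + lam) * |y|) := by
      rw [← Real.exp_add]
      apply Real.exp_le_exp.2
      nlinarith
    have h3 : Real.exp ((1 + lam) * |y|) ≤
        Real.exp ((1 + lam) * y) + Real.exp (-(1 + lam) * y) := by
      rcases abs_cases y with ⟨h4, -⟩ | ⟨h4, -⟩
      · rw [h4]
        linarith [Real.exp_pos (-(1 + lam) * y)]
      · rw [h4]
        have e : (1 + lam) * -y = -(1 + lam) * y := by ring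
        rw [e]
        linarith [Real.exp_pos ((1 + lam) * y)]
    have h5 := Real.exp_pos (-(lam * T))
    calc y ^ 2 ≤ 2 * Real.exp |y| := h1
      _ ≤ 2 * (Real.exp (-(lam * T)) * Real.exp ((1 + lam) * |y|)) := by linarith
      _ ≤ 2 * (Real.exp (-(lam * T)) * (Real.exp ((1 + lam) * y) + Real.exp (-(1 + lam) * y))) := by
          have := mul_le_mul_of_nonneg_left h3 h5.le
          linarith
      _ = _ := by ring
  · positivity

/-- `β(T)` -/
noncomputable def beta (T : ℝ) : ℝ := 4 * Real.exp (T - T ^ 2 / 4)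

lemma beta_pos (T : ℝ) : 0 < beta T := by unfold beta; positivity

lemma sum_sq_indicator_signs {D : ℕ} (a : Fin D → ℝ) (ha : ∑ j, a j ^ 2 ≤ 2) (T : ℝ) (hT : 2 ≤ T) :
    ∑ e : Fin D → Bool, (if T < |∑ j, a j * sg (e j)| then (∑ j, a j * sg (e j)) ^ 2 else 0) ≤
      2 ^ D * beta T := by
  set lam := T / 2 - 1 with hlam
  have hlam0 : 0 ≤ lam := by rw [hlam]; linarith
  have key : ∀ mu : ℝ, ∑ e : Fin D → Bool, Real.exp (mu * ∑ j, a j * sg (e j)) ≤
      2 ^ D * Real.exp (mu ^ 2) := by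
    intro mu
    refine (sum_exp_signs a mu).trans ?_
    apply mul_le_mul_of_nonneg_left _ (by positivity)
    apply Real.exp_le_exp.2
    nlinarith [sq_nonneg mu]
  calc ∑ e : Fin D → Bool, (if T < |∑ j, a j * sg (e j)| then (∑ j, a j * sg (e j)) ^ 2 else 0)
      ≤ ∑ e : Fin D → Bool, 2 * Real.exp (-(lam * T)) *
          (Real.exp ((1 + lam) * ∑ j, a j * sg (e j)) +
            Real.exp (-(1 + lam) * ∑ j, a j * sg (e j))) :=
        Finset.sum_le_sum fun e _ => sq_indicator_le _ T lam hlam0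
    _ = 2 * Real.exp (-(lam * T)) *
          (∑ e : Fin D → Bool, Real.exp ((1 + lam) * ∑ j, a j * sg (e j)) +
            ∑ e : Fin D → Bool, Real.exp (-(1 + lam) * ∑ j, a j * sg (e j))) := by
        rw [← Finset.mul_sum, Finset.sum_add_distrib]
    _ ≤ 2 * Real.exp (-(lam * T)) * (2 ^ D * Real.exp ((1 + lam) ^ 2) +
          2 ^ D * Real.exp ((-(1 + lam)) ^ 2)) := by
        apply mul_le_mul_of_nonneg_left _ (by positivity)
        exact add_le_add (key _) (key _)
    _ = 2 ^ D * beta T := by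
        rw [neg_sq]
        have e1 : (1 + lam) ^ 2 = T ^ 2 / 4 := by rw [hlam]; ring
        have e2 : -(lam * T) = T - T ^ 2 / 2 := by rw [hlam]; ring
        rw [e1, e2]
        unfold beta
        have e3 : Real.exp (T - T ^ 2 / 4) = Real.exp (T - T ^ 2 / 2) * Real.exp (T ^ 2 / 4) := by
          rw [← Real.exp_add]
          congr 1
          ring
        rw [e3]
        ring

end Pool.Agent.Helper59.Kiss
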