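import Pool.Agent.Helper59.Kiss.Alphabet

open Filter InnerProductGeometry
open scoped RealInnerProductSpace

namespace Pool.Agent.Helper59.Kiss

/-- `IsPermCode d k φ v S`: `v` is a nonzero integer vector of length `d` with entries in
`[-k, k]`, and `S` is a set of permutations of the coordinates such that any two distinct elements
`σ, τ` of `S` satisfy `∑ v_{σ(i)} v_{τ(i)} ≤ cos φ · ∑ v_i²`. -/
def IsPermCode (d k : ℕ) (φ : ℝ) (v : Fin d → ℤ) (S : Finset (Equiv.Perm (Fin d))) : Prop :=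
  v ≠ 0 ∧ (∀ i, |v i| ≤ k) ∧ ∀ σ ∈ S, ∀ τ ∈ S, σ ≠ τ →
    ((∑ i, v (σ i) * v (τ i) : ℤ) : ℝ) ≤ Real.cos φ * ((∑ i, v i ^ 2 : ℤ) : ℝ)

/-- the largest number of permutations in a set as in `IsPermCode`, over all `v`. -/
noncomputable def maxPerm (d k : ℕ) (φ : ℝ) : ℕ :=
  sSup {N | ∃ v S, IsPermCode d k φ v S ∧ S.card = N}

lemma inner_intVec {d : ℕ} (v w : Fin d → ℤ) :
    ⟪intVec v, intVec w⟫ = ((∑ i, v i * w i : ℤ) : ℝ) := by
  unfold intVec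
  rw [PiLp.inner_apply]
  push_cast
  apply Finset.sum_congr rfl
  intro i _
  simp [mul_comm]

lemma norm_intVec_comp {d : ℕ} (v : Fin d → ℤ) (σ : Equiv.Perm (Fin d)) :
    ‖intVec (v ∘ σ)‖ = ‖intVec v‖ := by
  have h : ∀ w : Fin d → ℤ, ‖intVec w‖ ^ 2 = ((∑ i, w i ^ 2 : ℤ) : ℝ) := by
    intro w
    rw [← real_inner_self_eq_norm_sq, inner_intVec]
    congr 1
    apply Finset.sum_congr rfl
    intro i _
    ring
  have h1 : ‖intVec (v ∘ σ)‖ ^ 2 = ‖intVec v‖ ^ 2 := by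
    rw [h, h]
    congr 1
    exact Equiv.sum_comp σ (fun i => v i ^ 2)
  exact (sq_eq_sq₀ (norm_nonneg _) (norm_nonneg _)).1 h1

lemma norm_intVec_sq {d : ℕ} (w : Fin d → ℤ) : ‖intVec w‖ ^ 2 = ((∑ i, w i ^ 2 : ℤ) : ℝ) := by
  rw [← real_inner_self_eq_norm_sq, inner_intVec]
  congr 1
  apply Finset.sum_congr rfl
  intro i _
  ring

lemma intVec_ne_zero {d : ℕ} {v : Fin d → ℤ} (hv : v ≠ 0) : 0 < ‖intVec v‖ := by
  rw [norm_pos_iff]
  intro h
  apply hv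
  funext i
  have := congrArg (fun x : EuclideanSpace ℝ (Fin d) => x i) h
  simpa [intVec] using this

/-- The angle condition in coordinates. -/
lemma angle_intVec_iff {d : ℕ} {φ : ℝ} (h0 : 0 ≤ φ) (hπ : φ ≤ Real.pi) {v : Fin d → ℤ}
    (hv : v ≠ 0) (σ τ : Equiv.Perm (Fin d)) :
    φ ≤ angle (intVec (v ∘ σ)) (intVec (v ∘ τ)) ↔
      ((∑ i, v (σ i) * v (τ i) : ℤ) : ℝ) ≤ Real.cos φ * ((∑ i, v i ^ 2 : ℤ) : ℝ) := by
  have hn := intVec_ne_zero hv
  have hsq := norm_intVec_sq v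
  have hin : ⟪intVec (v ∘ σ), intVec (v ∘ τ)⟫ = ((∑ i, v (σ i) * v (τ i) : ℤ) : ℝ) :=
    inner_intVec _ _
  have hcos : Real.cos (angle (intVec (v ∘ σ)) (intVec (v ∘ τ))) =
      ((∑ i, v (σ i) * v (τ i) : ℤ) : ℝ) / ((∑ i, v i ^ 2 : ℤ) : ℝ) := by
    rw [cos_angle, norm_intVec_comp, norm_intVec_comp, hin, ← sq, hsq]
  have hpos : (0 : ℝ) < ((∑ i, v i ^ 2 : ℤ) : ℝ) := by
    rw [← hsq]; positivity
  rw [← div_le_iff₀ hpos, ← hcos]
  constructor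
  · intro h
    exact Real.cos_le_cos_of_nonneg_of_le_pi h0 (angle_le_pi _ _) h
  · intro h
    by_contra hlt
    push Not at hlt
    have := Real.cos_lt_cos_of_nonneg_of_le_pi (angle_nonneg _ _) hπ hlt
    linarith

/-- A permutation code is a spherical code. -/
lemma IsPermCode.card_le {d k : ℕ} {φ : ℝ} (h0 : 0 < φ) (hπ : φ ≤ Real.pi) {v : Fin d → ℤ}
    {S : Finset (Equiv.Perm (Fin d))} (h : IsPermCode d k φ v S) : S.card ≤ maxCode d φ := by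
  classical
  obtain ⟨hv, -, hS⟩ := h
  have hn := intVec_ne_zero hv
  set L := ‖intVec v‖ with hL
  set f : Equiv.Perm (Fin d) → EuclideanSpace ℝ (Fin d) := fun σ => L⁻¹ • intVec (v ∘ σ) with hf
  have hang : ∀ σ τ, angle (f σ) (f τ) = angle (intVec (v ∘ σ)) (intVec (v ∘ τ)) := by
    intro σ τ
    have hL' : 0 < L⁻¹ := inv_pos.2 hn
    rw [hf]
    simp only
    rw [angle_smul_left_of_pos _ _ hL', angle_smul_right_of_pos _ _ hL']
  have hangle : ∀ σ ∈ S, ∀ τ ∈ S, σ ≠ τ → φ ≤ angle (f σ) (f τ) := by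
    intro σ hσ τ hτ hne
    rw [hang, angle_intVec_iff h0.le hπ hv]
    exact hS σ hσ τ hτ hne
  have hf1 : ∀ σ, ‖f σ‖ = 1 := by
    intro σ
    rw [hf]
    simp only
    rw [norm_smul, norm_intVec_comp, norm_inv, Real.norm_eq_abs, abs_of_pos hn,
      inv_mul_cancel₀ hn.ne']
  have hinj : Set.InjOn f S := by
    intro σ hσ τ hτ he
    by_contra hne
    have h1 := hangle σ hσ τ hτ hne
    rw [he, angle_self (by rw [← norm_pos_iff, hf1]; norm_num)] at h1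
    linarith
  have hC : IsCode d φ (S.image f) := by
    constructor
    · intro x hx
      obtain ⟨σ, -, rfl⟩ := Finset.mem_image.1 hx
      exact hf1 σ
    · intro x hx y hy hne
      obtain ⟨σ, hσ, rfl⟩ := Finset.mem_image.1 hx
      obtain ⟨τ, hτ, rfl⟩ := Finset.mem_image.1 hy
      exact hangle σ hσ τ hτ (fun h => hne (by rw [h]))
  rw [← Finset.card_image_of_injOn hinj]
  exact hC.card_le h0 hπ

lemma IsPermCode.card_le_maxPerm {d k : ℕ} {φ : ℝ} {v : Fin d → ℤ}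
    {S : Finset (Equiv.Perm (Fin d))} (h : IsPermCode d k φ v S) : S.card ≤ maxPerm d k φ := by
  apply le_csSup
  · refine ⟨Fintype.card (Equiv.Perm (Fin d)), ?_⟩
    rintro N ⟨v, S, -, rfl⟩
    exact Finset.card_le_univ S
  · exact ⟨v, S, h, rfl⟩

lemma maxPerm_le {d k : ℕ} {φ : ℝ} (h0 : 0 < φ) (hπ : φ ≤ Real.pi) :
    maxPerm d k φ ≤ maxCode d φ := by
  rcases Set.eq_empty_or_nonempty {N | ∃ v S, IsPermCode d k φ v S ∧ S.card = N} with h | h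
  · unfold maxPerm
    rw [h]
    simp
  · apply csSup_le h
    rintro N ⟨v, S, hS, rfl⟩
    exact hS.card_le h0 hπ

/-- Reduction to permutation codes over the alphabet `{-k, …, k}`. -/
theorem finite_alphabet {φ : ℝ} (h0 : 0 < φ) (hφ : φ < Real.pi / 2) :
    ∃ C : ℝ, 0 < C ∧ ∀ k : ℕ, 1 ≤ k → (∀ d, maxPerm d k φ ≤ maxCode d φ) ∧
      ∃ d₀ : ℕ, ∀ d ≥ d₀,
        (2 : ℝ) ^ (-(C * Real.sqrt (Real.log (k + 1)) / k * d)) * maxCode d φ ≤
          maxPerm d k φ := by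
  have hπ : φ ≤ Real.pi := by linarith [Real.pi_pos]
  obtain ⟨C, hC, h⟩ := alphabet h0 hφ
  refine ⟨C, hC, fun k hk => ⟨fun d => maxPerm_le h0 hπ, ?_⟩⟩
  obtain ⟨d₀, hd₀⟩ := h k hk
  refine ⟨d₀, fun d hd => ?_⟩
  obtain ⟨v, S, hv, hvk, hS, hcard⟩ := hd₀ d hd
  refine hcard.trans ?_
  have : IsPermCode d k φ v S := ⟨hv, hvk, fun σ hσ τ hτ hne =>
    (angle_intVec_iff h0.le hπ hv σ τ).1 (hS σ hσ τ hτ hne)⟩
  exact_mod_cast this.card_le_maxPerm

end Pool.Agent.Helper59.Kiss
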