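import Pool.Agent.Helper59.Kiss.Gap

open Filter MeasureTheory InnerProductGeometry ProbabilityTheory
open scoped RealInnerProductSpace Topology

namespace Pool.Agent.Helper59.Kiss

/-- an integer vector as a point of Euclidean space -/
noncomputable def intVec {d : ℕ} (v : Fin d → ℤ) : EuclideanSpace ℝ (Fin d) :=
  WithLp.toLp 2 fun i => (v i : ℝ)

lemma le_angle_of_inner_le {E : Type*} [NormedAddCommGroup E] [InnerProductSpace ℝ E] {x y : E}
    (hx : x ≠ 0) (hy : y ≠ 0) {φ : ℝ} (hπ : φ ≤ Real.pi)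
    (h : ⟪x, y⟫ ≤ Real.cos φ * (‖x‖ * ‖y‖)) : φ ≤ angle x y := by
  by_contra hcon
  push Not at hcon
  have h1 := Real.cos_lt_cos_of_nonneg_of_le_pi (angle_nonneg x y) hπ hcon
  have hxy : 0 < ‖x‖ * ‖y‖ := mul_pos (norm_pos_iff.2 hx) (norm_pos_iff.2 hy)
  rw [cos_angle, lt_div_iff₀ hxy] at h1
  linarith

/-- rounding -/
noncomputable def rnd {d : ℕ} (T M : ℝ) (v : EuclideanSpace ℝ (Fin d)) (j : Fin d) : ℤ :=
  if |Real.sqrt d * v j| ≤ T then round (M * (Real.sqrt d * v j)) else 0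

lemma abs_rnd_le {d k : ℕ} {T M : ℝ} (hM : 0 ≤ M) (hMT : M * T ≤ k)
    (v : EuclideanSpace ℝ (Fin d)) (j : Fin d) : |rnd T M v j| ≤ k := by
  unfold rnd
  split_ifs with h
  · have h1 := abs_sub_round (M * (Real.sqrt d * v j))
    have h2 : |M * (Real.sqrt d * v j)| ≤ k := by
      rw [abs_mul, abs_of_nonneg hM]
      exact (mul_le_mul_of_nonneg_left h hM).trans hMT
    have h3 : |((round (M * (Real.sqrt d * v j)) : ℤ) : ℝ)| ≤ k + 1 / 2 := by
      have h4 : |((round (M * (Real.sqrt d * v j)) : ℤ) : ℝ)| ≤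
          |M * (Real.sqrt d * v j)| +
            |M * (Real.sqrt d * v j) - ((round (M * (Real.sqrt d * v j)) : ℤ) : ℝ)| := by
        have := abs_sub_abs_le_abs_sub ((round (M * (Real.sqrt d * v j)) : ℤ) : ℝ)
          (M * (Real.sqrt d * v j))
        rw [abs_sub_comm] at this
        linarith
      linarith
    have h5 : ((|round (M * (Real.sqrt d * v j))| : ℤ) : ℝ) < (k : ℝ) + 1 := by
      rw [Int.cast_abs]
      linarith
    have h6 : |round (M * (Real.sqrt d * v j))| < (k : ℤ) + 1 := by exact_mod_cast h5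
    omega
  · simp

lemma rnd_error {d : ℕ} (hd : 1 ≤ d) {T M : ℝ} (hM : 0 < M) (v : EuclideanSpace ℝ (Fin d)) :
    ‖(M * Real.sqrt d)⁻¹ • intVec (rnd T M v) - v‖ ^ 2 ≤ 1 / (4 * M ^ 2) + mass T v := by
  have hd' : (0 : ℝ) < d := by exact_mod_cast hd
  have hsd : 0 < Real.sqrt d := Real.sqrt_pos.2 hd'
  rw [EuclideanSpace.real_norm_sq_eq]
  have h1 : ∀ j : Fin d, (((M * Real.sqrt d)⁻¹ • intVec (rnd T M v) - v) j) ^ 2 ≤
      1 / (4 * M ^ 2) / d + (if T < |Real.sqrt d * v j| then (v j) ^ 2 else 0) := by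
    intro j
    have e : ((M * Real.sqrt d)⁻¹ • intVec (rnd T M v) - v) j =
        (M * Real.sqrt d)⁻¹ * (rnd T M v j : ℝ) - v j := rfl
    rw [e]
    by_cases h : |Real.sqrt d * v j| ≤ T
    · have e2 : rnd T M v j = round (M * (Real.sqrt d * v j)) := if_pos h
      rw [e2, if_neg (not_lt.2 h), add_zero]
      set y := M * (Real.sqrt d * v j) with hy
      have h2 := abs_sub_round y
      have e3 : (M * Real.sqrt d)⁻¹ * ((round y : ℤ) : ℝ) - v j =
          -((M * Real.sqrt d)⁻¹ * (y - ((round y : ℤ) : ℝ))) := by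
        rw [hy]
        field_simp
        ring
      rw [e3, neg_sq, mul_pow]
      have h3 : (y - ((round y : ℤ) : ℝ)) ^ 2 ≤ (1 / 2) ^ 2 := by
        rw [← sq_abs]
        exact pow_le_pow_left₀ (abs_nonneg _) h2 2
      calc ((M * Real.sqrt d)⁻¹) ^ 2 * (y - ((round y : ℤ) : ℝ)) ^ 2
          ≤ ((M * Real.sqrt d)⁻¹) ^ 2 * (1 / 2) ^ 2 :=
            mul_le_mul_of_nonneg_left h3 (sq_nonneg _)
        _ = 1 / (4 * M ^ 2) / d := by
            rw [inv_pow, mul_pow, Real.sq_sqrt hd'.le]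
            field_simp
            norm_num
    · have e2 : rnd T M v j = 0 := if_neg h
      rw [e2, if_pos (not_le.1 h)]
      push_cast
      rw [mul_zero, zero_sub, neg_sq]
      have : 0 ≤ 1 / (4 * M ^ 2) / (d : ℝ) := by positivity
      linarith
  calc ∑ j, (((M * Real.sqrt d)⁻¹ • intVec (rnd T M v) - v) j) ^ 2
      ≤ ∑ j : Fin d, (1 / (4 * M ^ 2) / d +
          (if T < |Real.sqrt d * v j| then (v j) ^ 2 else 0)) :=
        Finset.sum_le_sum fun j _ => h1 j
    _ = 1 / (4 * M ^ 2) + mass T v := by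
        rw [Finset.sum_add_distrib, Finset.sum_const, Finset.card_univ, Fintype.card_fin,
          nsmul_eq_mul, mul_div_cancel₀ _ hd'.ne']
        rfl

/-- number of occurrences -/
def cnt {d : ℕ} (r : Fin d → ℤ) (c : ℤ) : ℕ := (Finset.univ.filter fun j => r j = c).card

lemma exists_perm_of_cnt {d : ℕ} (r r' : Fin d → ℤ) (h : ∀ c, cnt r c = cnt r' c) :
    ∃ σ : Equiv.Perm (Fin d), r' = r ∘ σ := by
  have h1 : ∀ c : ℤ, Nonempty ({j // r' j = c} ≃ {j // r j = c}) := by
    intro c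
    rw [← Fintype.card_eq]
    have := h c
    unfold cnt at this
    rw [Fintype.card_subtype, Fintype.card_subtype, this]
  let e : ∀ c : ℤ, {j // r' j = c} ≃ {j // r j = c} := fun c => (h1 c).some
  refine ⟨Equiv.ofFiberEquiv e, ?_⟩
  funext j
  exact (Equiv.ofFiberEquiv_map e j).symm

/-- the alphabet code conclusion -/
def HasPermCode (d k : ℕ) (φ : ℝ) (N : ℝ) : Prop :=
  ∃ (v : Fin d → ℤ) (S : Finset (Equiv.Perm (Fin d))), v ≠ 0 ∧ (∀ i, |v i| ≤ k) ∧
    (∀ σ ∈ S, ∀ τ ∈ S, σ ≠ τ → φ ≤ angle (intVec (v ∘ σ)) (intVec (v ∘ τ))) ∧ N ≤ S.card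

lemma hasPermCode_of_fam {d k : ℕ} (hd : 1 ≤ d) (hk : 1 ≤ k) {φ : ℝ} (h0 : 0 < φ)
    (hπ : φ ≤ Real.pi) (hcos : 0 ≤ Real.cos φ) {T ν s' : ℝ} (hT : 2 ≤ T)
    (hν : T ^ 2 / (4 * k ^ 2) + 2 * beta T ≤ ν ^ 2) (hν0 : 0 ≤ ν) (hν1 : ν < 1)
    (hs : s' + 2 * ν + ν ^ 2 ≤ Real.cos φ * (1 - ν) ^ 2) {ι : Type*} [Fintype ι]
    {f : ι → EuclideanSpace ℝ (Fin d)} (hf : Fam _ s' f) :
    ∃ N : ℝ, HasPermCode d k φ N ∧ (Fintype.card ι : ℝ) ≤ 2 * ((d + 1 : ℕ) : ℝ) ^ (2 * k + 1) * N := by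
  classical
  obtain ⟨g, hg, -, J, hJ, hmass⟩ := exists_flat hf T hT
  have hd' : (0 : ℝ) < d := by exact_mod_cast hd
  have hk' : (0 : ℝ) < k := by exact_mod_cast hk
  have hT0 : 0 < T := by linarith
  have hsd : 0 < Real.sqrt d := Real.sqrt_pos.2 hd'
  rcases J.eq_empty_or_nonempty with rfl | hJne
  · -- trivial case
    refine ⟨0, ⟨fun _ => 1, ∅, ?_, ?_, by simp, by simp⟩, ?_⟩
    · intro h
      have := congrFun h ⟨0, hd⟩
      simp at this
    · intro i
      simp only [abs_one]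
      exact_mod_cast hk
    · rw [Finset.card_empty] at hJ
      have : Fintype.card ι = 0 := by omega
      rw [this]
      simp
  set M := (k : ℝ) / T with hM
  have hM0 : 0 < M := by positivity
  have hMT : M * T ≤ k := by rw [hM]; field_simp; exact le_rfl
  set L := M * Real.sqrt d with hL
  have hL0 : 0 < L := by positivity
  let r : ι → Fin d → ℤ := fun i => rnd T M (g i)
  have herr : ∀ i ∈ J, ‖L⁻¹ • intVec (r i) - g i‖ ≤ ν := by
    intro i hi
    apply le_of_sq_le_sq _ hν0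
    refine (rnd_error hd hM0 (g i)).trans (le_trans ?_ hν)
    have h1 := hmass i hi
    have h2 : 1 / (4 * M ^ 2) = T ^ 2 / (4 * k ^ 2) := by
      rw [hM]
      field_simp
    rw [h2]
    linarith
  set a : ι → EuclideanSpace ℝ (Fin d) := fun i => L⁻¹ • intVec (r i) with ha
  have hanorm : ∀ i ∈ J, 1 - ν ≤ ‖a i‖ := by
    intro i hi
    have h1 := norm_sub_norm_le (g i) (a i)
    rw [hg.norm, norm_sub_rev] at h1
    have h2 := herr i hi
    change ‖a i - g i‖ ≤ ν at h2
    linarith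
  have hane : ∀ i ∈ J, a i ≠ 0 := by
    intro i hi h
    have := hanorm i hi
    rw [h, norm_zero] at this
    linarith
  have hainner : ∀ i ∈ J, ∀ j ∈ J, i ≠ j → ⟪a i, a j⟫ ≤ Real.cos φ * (‖a i‖ * ‖a j‖) := by
    intro i hi j hj hij
    have h1 : ⟪a i, a j⟫ = ⟪g i, g j⟫ + ⟪a i - g i, g j⟫ + ⟪g i, a j - g j⟫ +
        ⟪a i - g i, a j - g j⟫ := by
      simp only [inner_sub_left, inner_sub_right]
      ring
    have h2 := hg.inner i j hij
    have h3 := real_inner_le_norm (a i - g i) (g j)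
    have h4 := real_inner_le_norm (g i) (a j - g j)
    have h5 := real_inner_le_norm (a i - g i) (a j - g j)
    rw [hg.norm, mul_one] at h3
    rw [hg.norm, one_mul] at h4
    have h6 : ‖a i - g i‖ ≤ ν := herr i hi
    have h7 : ‖a j - g j‖ ≤ ν := herr j hj
    have h8 : ‖a i - g i‖ * ‖a j - g j‖ ≤ ν ^ 2 := by
      rw [sq]
      exact mul_le_mul h6 h7 (norm_nonneg _) hν0
    have h9 : (1 - ν) ^ 2 ≤ ‖a i‖ * ‖a j‖ := by
      rw [sq]
      exact mul_le_mul (hanorm i hi) (hanorm j hj) (by linarith) (norm_nonneg _)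
    calc ⟪a i, a j⟫ ≤ s' + 2 * ν + ν ^ 2 := by linarith
      _ ≤ Real.cos φ * (1 - ν) ^ 2 := hs
      _ ≤ _ := mul_le_mul_of_nonneg_left h9 hcos
  have hangle : ∀ i ∈ J, ∀ j ∈ J, i ≠ j → φ ≤ angle (intVec (r i)) (intVec (r j)) := by
    intro i hi j hj hij
    have h1 := le_angle_of_inner_le (hane i hi) (hane j hj) hπ (hainner i hi j hj hij)
    rwa [ha, angle_smul_left_of_pos _ _ (inv_pos.2 hL0),
      angle_smul_right_of_pos _ _ (inv_pos.2 hL0)] at h1
  have hrbd : ∀ i j, |r i j| ≤ k := fun i j => abs_rnd_le hM0.le hMT (g i) j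
  -- pigeonhole on the composition
  let comp : ι → (Fin (2 * k + 1) → Fin (d + 1)) := fun i c =>
    ⟨cnt (r i) ((c : ℕ) - k), by
      unfold cnt
      have := Finset.card_le_univ (Finset.univ.filter fun j => r i j = (c : ℕ) - (k : ℤ))
      rw [Fintype.card_fin] at this
      omega⟩
  have hcomp : ∀ i j, comp i = comp j → ∀ c, cnt (r i) c = cnt (r j) c := by
    intro i j hij c
    by_cases hc : |c| ≤ k
    · have h1 : c = ((⟨(c + k).toNat, by
          rw [abs_le] at hc; omega⟩ : Fin (2 * k + 1)) : ℕ) - (k : ℤ) := by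
        rw [abs_le] at hc
        simp only
        omega
      have h2 := congrArg Fin.val (congrFun hij ⟨(c + k).toNat, by rw [abs_le] at hc; omega⟩)
      simp only [comp] at h2
      rw [← h1] at h2
      exact h2
    · have h3 : ∀ i, cnt (r i) c = 0 := by
        intro i
        unfold cnt
        rw [Finset.card_eq_zero, Finset.filter_eq_empty_iff]
        intro l _ hl
        rw [← hl] at hc
        exact hc (hrbd i l)
      rw [h3, h3]
  obtain ⟨κ, hκmem, hκ⟩ : ∃ κ ∈ (Finset.univ : Finset (Fin (2 * k + 1) → Fin (d + 1))),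
      (J.card : ℝ) ≤ ((d + 1 : ℕ) : ℝ) ^ (2 * k + 1) *
        ((J.filter fun i => comp i = κ).card : ℝ) := by
    by_contra hcon
    push Not at hcon
    have h1 : J.card = ∑ κ : Fin (2 * k + 1) → Fin (d + 1), (J.filter fun i => comp i = κ).card :=
      Finset.card_eq_sum_card_fiberwise (fun i _ => Finset.mem_univ _)
    have hP : (0 : ℝ) < ((d + 1 : ℕ) : ℝ) ^ (2 * k + 1) := by positivity
    have h2 : (J.card : ℝ) < J.card := by
      calc (J.card : ℝ) = ∑ κ : Fin (2 * k + 1) → Fin (d + 1),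
            ((J.filter fun i => comp i = κ).card : ℝ) := by
              conv_lhs => rw [h1]
              push_cast
              rfl
        _ < ∑ κ : Fin (2 * k + 1) → Fin (d + 1), (J.card : ℝ) / ((d + 1 : ℕ) : ℝ) ^ (2 * k + 1) := by
            apply Finset.sum_lt_sum_of_nonempty Finset.univ_nonempty
            intro κ hκ
            rw [lt_div_iff₀ hP, mul_comm]
            exact hcon κ hκ
        _ = J.card := by
            rw [Finset.sum_const, Finset.card_univ, Fintype.card_pi]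
            simp only [Fintype.card_fin, Finset.prod_const, Finset.card_univ, nsmul_eq_mul]
            push_cast
            field_simp
    exact lt_irrefl _ h2
  set J' := J.filter fun i => comp i = κ with hJ'
  have hJ'ne : J'.Nonempty := by
    rw [← Finset.card_pos]
    by_contra h
    have h1 : J'.card = 0 := by omega
    rw [h1] at hκ
    have h2 : (0 : ℝ) < J.card := by exact_mod_cast hJne.card_pos
    simp at hκ
    rw [hκ] at h2
    simp at h2
  obtain ⟨i₀, hi₀⟩ := hJ'ne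
  have hperm : ∀ i ∈ J', ∃ σ : Equiv.Perm (Fin d), r i = r i₀ ∘ σ := by
    intro i hi
    apply exists_perm_of_cnt
    apply hcomp
    rw [(Finset.mem_filter.1 hi).2, (Finset.mem_filter.1 hi₀).2]
  choose! σ hσ using hperm
  have hinj : Set.InjOn σ J' := by
    intro i hi j hj hij
    by_contra hne
    have h1 := hangle i (Finset.mem_filter.1 hi).1 j (Finset.mem_filter.1 hj).1 hne
    rw [hσ i hi, hσ j hj, hij] at h1
    have h2 : intVec (r i₀ ∘ (σ j)) ≠ 0 := by
      rw [← hσ j hj]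
      intro h
      apply hane j (Finset.mem_filter.1 hj).1
      rw [ha]
      simp [h]
    rw [angle_self h2] at h1
    linarith
  refine ⟨J'.card, ⟨r i₀, J'.image σ, ?_, hrbd i₀, ?_, ?_⟩, ?_⟩
  · intro h
    apply hane i₀ (Finset.mem_filter.1 hi₀).1
    rw [ha]
    have : intVec (r i₀) = 0 := by
      rw [h]
      ext j
      simp [intVec]
    simp [this]
  · intro p hp q hq hpq
    obtain ⟨i, hi, rfl⟩ := Finset.mem_image.1 hp
    obtain ⟨j, hj, rfl⟩ := Finset.mem_image.1 hq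
    rw [← hσ i hi, ← hσ j hj]
    exact hangle i (Finset.mem_filter.1 hi).1 j (Finset.mem_filter.1 hj).1 (by
      rintro rfl
      exact hpq rfl)
  · rw [Finset.card_image_of_injOn hinj]
  · have h1 : (Fintype.card ι : ℝ) ≤ 2 * J.card := by exact_mod_cast hJ
    calc (Fintype.card ι : ℝ) ≤ 2 * J.card := h1
      _ ≤ 2 * (((d + 1 : ℕ) : ℝ) ^ (2 * k + 1) * (J'.card : ℝ)) := by linarith
      _ = _ := by ring

end Pool.Agent.Helper59.Kiss
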