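import Pool.Agent.Helper59.Kiss.Exponents

open Filter MeasureTheory InnerProductGeometry ProbabilityTheory
open scoped RealInnerProductSpace Topology

namespace Pool.Agent.Helper59.Kiss

/-- The algebra behind the projection of a thin slice onto the equator. -/
lemma slice_algebra {s h h' q : ℝ} (hs0 : 0 < s) (hs1 : s < 1) (hh : 0 < h) (hh' : 0 < h')
    (h1 : s * h ≤ h') (h2 : s * h' ≤ h) (hb : h < 1) (hb' : h' < 1) (hq : q ≤ s) :
    q - h * h' ≤ s * (Real.sqrt (1 - h ^ 2) * Real.sqrt (1 - h' ^ 2)) := by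
  have e1 : 0 < 1 - h ^ 2 := by nlinarith
  have e2 : 0 < 1 - h' ^ 2 := by nlinarith
  rw [← Real.sqrt_mul e1.le]
  rcases le_or_gt s (h * h') with h3 | h3
  · have : 0 ≤ s * Real.sqrt ((1 - h ^ 2) * (1 - h' ^ 2)) := by positivity
    linarith
  · have h4 : (s - h * h') ^ 2 ≤ s ^ 2 * ((1 - h ^ 2) * (1 - h' ^ 2)) := by
      have h5 : 0 ≤ (h' - s * h) * (h - s * h') := mul_nonneg (by linarith) (by linarith)
      have hu : 0 < h * h' := mul_pos hh hh'
      have h6 : s * (h ^ 2 + h' ^ 2) ≤ (1 + s ^ 2) * (h * h') := by nlinarith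
      have h7 : s * (s * (h ^ 2 + h' ^ 2)) ≤ s * ((1 + s ^ 2) * (h * h')) :=
        mul_le_mul_of_nonneg_left h6 hs0.le
      have h8 : 0 < 1 - s ^ 2 := by nlinarith
      have h9 : (1 - s ^ 2) * (h * h') * (h * h') ≤ (1 - s ^ 2) * (h * h') * s :=
        mul_le_mul_of_nonneg_left h3.le (by positivity)
      nlinarith
    have h5 : s - h * h' ≤ s * Real.sqrt ((1 - h ^ 2) * (1 - h' ^ 2)) := by
      apply le_of_sq_le_sq _ (by positivity)
      rw [mul_pow, Real.sq_sqrt (by positivity)]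
      exact h4
    linarith

/-- The points of a code whose heights over a hyperplane are comparable form, after projection, a
code in the hyperplane. -/
lemma slice {d : ℕ} (hd : 1 ≤ d) {φ : ℝ} (h0 : 0 < φ) (hφ : φ < Real.pi / 2)
    {ι : Type*} [Fintype ι] {f : ι → EuclideanSpace ℝ (Fin (d + 1))}
    (hf : Fam _ (Real.cos φ) f) (g : EuclideanSpace ℝ (Fin (d + 1))) {t : ℝ} (ht : 0 < t)
    (J : Finset ι) (hJ : ∀ i ∈ J, t ≤ ⟪f i, g⟫ ∧ ⟪f i, g⟫ < t / Real.cos φ) :
    J.card ≤ maxCode d φ := by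
  classical
  have hπ : φ ≤ Real.pi := by linarith [Real.pi_pos]
  set s := Real.cos φ with hs
  have hs0 : 0 < s := Real.cos_pos_of_mem_Ioo ⟨by linarith, hφ⟩
  have hs1 : s < 1 := cos_lt_one h0 hπ
  rcases J.eq_empty_or_nonempty with rfl | ⟨i₀, hi₀⟩
  · simp
  have hg : g ≠ 0 := by
    rintro rfl
    have := (hJ i₀ hi₀).1
    rw [inner_zero_right] at this
    linarith
  have hgn : 0 < ‖g‖ := norm_pos_iff.2 hg
  set e := (‖g‖)⁻¹ • g with he
  have hen : ‖e‖ = 1 := by
    rw [he, norm_smul, norm_inv, norm_norm, inv_mul_cancel₀ hgn.ne']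
  have hheight : ∀ i, ⟪f i, e⟫ = ⟪f i, g⟫ / ‖g‖ := by
    intro i
    rw [he, real_inner_smul_right]
    field_simp
  have hpos : ∀ i ∈ J, 0 < ⟪f i, e⟫ := by
    intro i hi
    rw [hheight]
    exact div_pos (ht.trans_le (hJ i hi).1) hgn
  have hratio : ∀ i ∈ J, ∀ j ∈ J, s * ⟪f i, e⟫ < ⟪f j, e⟫ := by
    intro i hi j hj
    rw [hheight, hheight, mul_div_assoc', div_lt_div_iff_of_pos_right hgn]
    have h1 := (hJ i hi).2
    have h2 := (hJ j hj).1
    rw [lt_div_iff₀ hs0] at h1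
    linarith
  clear_value e
  have hle1 : ∀ i, ⟪f i, e⟫ ≤ 1 := by
    intro i
    have := real_inner_le_norm (f i) e
    rw [hf.norm, hen, mul_one] at this
    exact this
  by_cases hone : ∃ i ∈ J, ⟪f i, e⟫ = 1
  · obtain ⟨i, hi, hi1⟩ := hone
    have hfe : f i = e := (inner_eq_one_iff_of_norm_eq_one (hf.norm i) hen).1 hi1
    have : J = {i} := by
      rw [Finset.eq_singleton_iff_unique_mem]
      refine ⟨hi, fun j hj => ?_⟩
      by_contra hne
      have h1 := hf.inner j i hne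
      have h2 := hratio i hi j hj
      rw [hi1, mul_one, ← hfe] at h2
      linarith
    rw [this, Finset.card_singleton]
    exact one_le_maxCode hd h0 hπ
  push Not at hone
  have hlt1 : ∀ i ∈ J, ⟪f i, e⟫ < 1 := fun i hi => lt_of_le_of_ne (hle1 i) (hone i hi)
  let V : Submodule ℝ (EuclideanSpace ℝ (Fin (d + 1))) := (ℝ ∙ e)ᗮ
  have hV : Module.finrank ℝ V = d := by
    have : Fact (Module.finrank ℝ (EuclideanSpace ℝ (Fin (d + 1))) = d + 1) := ⟨by simp⟩
    exact Submodule.finrank_orthogonal_span_singleton (by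
      intro h
      rw [h, norm_zero] at hen
      exact zero_ne_one hen)
  let w : ι → V := fun i => ⟨f i - ⟪f i, e⟫ • e, by
    rw [Submodule.mem_orthogonal_singleton_iff_inner_right, inner_sub_right,
      real_inner_smul_right, real_inner_self_eq_norm_sq, hen, real_inner_comm]
    ring⟩
  have hww : ∀ i j, ⟪w i, w j⟫ = ⟪f i, f j⟫ - ⟪f i, e⟫ * ⟪f j, e⟫ := by
    intro i j
    change ⟪f i - ⟪f i, e⟫ • e, f j - ⟪f j, e⟫ • e⟫ = _
    rw [inner_sub_left, inner_sub_right, inner_sub_right, real_inner_smul_left,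
      real_inner_smul_right, real_inner_smul_left, real_inner_smul_right,
      real_inner_self_eq_norm_sq, hen, real_inner_comm (f j) e]
    ring
  have hwn : ∀ i, ‖w i‖ = Real.sqrt (1 - ⟪f i, e⟫ ^ 2) := by
    intro i
    rw [← Real.sqrt_sq (norm_nonneg (w i)), ← real_inner_self_eq_norm_sq, hww,
      real_inner_self_eq_norm_sq, hf.norm]
    congr 1
    ring
  have hwpos : ∀ i ∈ J, 0 < ‖w i‖ := by
    intro i hi
    rw [hwn]
    apply Real.sqrt_pos.2
    have h1 := hlt1 i hi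
    have h2 := hpos i hi
    nlinarith
  have hfam : Fam V (Real.cos φ) (fun i : J => (‖w i‖)⁻¹ • w i) := by
    constructor
    · rintro ⟨i, hi⟩
      rw [norm_smul, norm_inv, norm_norm, inv_mul_cancel₀ (hwpos i hi).ne']
    · rintro ⟨i, hi⟩ ⟨j, hj⟩ hij
      have hne : i ≠ j := fun h => hij (Subtype.ext h)
      rw [real_inner_smul_left, real_inner_smul_right, ← mul_assoc, ← mul_inv]
      have h1 := hwpos i hi
      have h2 := hwpos j hj
      change (‖w i‖ * ‖w j‖)⁻¹ * ⟪w i, w j⟫ ≤ Real.cos φ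
      rw [inv_mul_le_iff₀ (by positivity), hww, hwn i, hwn j]
      rw [mul_comm (Real.sqrt (1 - ⟪f i, e⟫ ^ 2) * Real.sqrt (1 - ⟪f j, e⟫ ^ 2))]
      exact slice_algebra hs0 hs1 (hpos i hi) (hpos j hj) (hratio i hi j hj).le
        (hratio j hj i hi).le (hlt1 i hi) (hlt1 j hj) (hf.inner i j hne)
  have h1 := hfam.card_le_maxCode (d := d) hV.le h0 hπ
  rwa [Fintype.card_coe] at h1

/-- one-dimensional marginals of the standard Gaussian measure -/
lemma stdGaussian_inner {E : Type*} [NormedAddCommGroup E] [InnerProductSpace ℝ E]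
    [FiniteDimensional ℝ E] [MeasurableSpace E] [BorelSpace E] (x : E) (hx : ‖x‖ = 1) :
    (stdGaussian E).map (fun g => ⟪x, g⟫) = gaussianReal 0 1 := by
  have h1 := IsGaussian.map_eq_gaussianReal (μ := stdGaussian E) (innerSL ℝ x)
  rw [integral_strongDual_stdGaussian, variance_dual_stdGaussian, innerSL_apply_norm, hx] at h1
  simpa using h1

/-- Gaussian averaging over the slices. -/
lemma card_mul_gaussian_le {d : ℕ} (hd : 1 ≤ d) {φ : ℝ} (h0 : 0 < φ) (hφ : φ < Real.pi / 2)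
    {t : ℝ} (ht : 0 < t) :
    (maxCode (d + 1) φ : ENNReal) * gaussianReal 0 1 (Set.Ico t (t / Real.cos φ)) ≤
      maxCode d φ := by
  classical
  have hπ : φ ≤ Real.pi := by linarith [Real.pi_pos]
  obtain ⟨C, hC, hcard⟩ := exists_maxCode (d + 1) h0 hπ
  have hf := hC.fam h0 hπ
  set f : C → EuclideanSpace ℝ (Fin (d + 1)) := fun x => (x : EuclideanSpace ℝ (Fin (d + 1)))
    with hfdef
  set I := Set.Ico t (t / Real.cos φ) with hI
  let μ := stdGaussian (EuclideanSpace ℝ (Fin (d + 1)))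
  have hmeas : ∀ x : EuclideanSpace ℝ (Fin (d + 1)), Measurable fun g => ⟪x, g⟫ :=
    fun x => (innerSL ℝ x).continuous.measurable
  have h1 : ∀ i : C, μ {g | ⟪f i, g⟫ ∈ I} = gaussianReal 0 1 I := by
    intro i
    rw [← stdGaussian_inner (f i) (hf.norm i), Measure.map_apply (hmeas _) measurableSet_Ico]
    rfl
  have h2 : ∑ i : C, μ {g | ⟪f i, g⟫ ∈ I} = (maxCode (d + 1) φ : ENNReal) * gaussianReal 0 1 I := by
    rw [Finset.sum_congr rfl (fun i _ => h1 i), Finset.sum_const, Finset.card_univ,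
      Fintype.card_coe, hcard, nsmul_eq_mul]
  rw [← h2]
  have h3 : ∑ i : C, μ {g | ⟪f i, g⟫ ∈ I} =
      ∫⁻ g, ∑ i : C, ({g | ⟪f i, g⟫ ∈ I} : Set _).indicator (fun _ => (1 : ENNReal)) g ∂μ := by
    rw [lintegral_finsetSum]
    · apply Finset.sum_congr rfl
      intro i _
      have hms : MeasurableSet {g | ⟪f i, g⟫ ∈ I} := (hmeas (f i)) measurableSet_Ico
      rw [lintegral_indicator hms]
      simp
    · intro i _
      exact measurable_const.indicator ((hmeas _) measurableSet_Ico)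
  rw [h3]
  have h4 : ∀ g, ∑ i : C, ({g | ⟪f i, g⟫ ∈ I} : Set _).indicator (fun _ => (1 : ENNReal)) g ≤
      maxCode d φ := by
    intro g
    have h5 : ∑ i : C, ({g | ⟪f i, g⟫ ∈ I} : Set _).indicator (fun _ => (1 : ENNReal)) g =
        ((Finset.univ.filter fun i : C => ⟪f i, g⟫ ∈ I).card : ENNReal) := by
      rw [Finset.card_filter]
      push_cast
      apply Finset.sum_congr rfl
      intro i _
      rw [Set.indicator_apply]
      rfl
    rw [h5]
    exact_mod_cast slice hd h0 hφ hf g ht (Finset.univ.filter fun i : C => ⟪f i, g⟫ ∈ I)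
      (fun i hi => (Finset.mem_filter.1 hi).2)
  calc ∫⁻ g, ∑ i : C, ({g | ⟪f i, g⟫ ∈ I} : Set _).indicator (fun _ => (1 : ENNReal)) g ∂μ
      ≤ ∫⁻ _, (maxCode d φ : ENNReal) ∂μ := lintegral_mono h4
    _ = maxCode d φ := by
        rw [lintegral_const]
        simp [μ]

end Pool.Agent.Helper59.Kiss
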