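import Pool.Agent.Helper59.Kiss.Slice

open Filter MeasureTheory InnerProductGeometry ProbabilityTheory
open scoped RealInnerProductSpace Topology

namespace Pool.Agent.Helper59.Kiss

lemma gauss_Ico_ge {a b : ℝ} (ha : 0 ≤ a) :
    ENNReal.ofReal ((b - a) * gaussianPDFReal 0 1 b) ≤ gaussianReal 0 1 (Set.Ico a b) := by
  rw [gaussianReal_apply 0 one_ne_zero]
  calc ENNReal.ofReal ((b - a) * gaussianPDFReal 0 1 b)
      = ∫⁻ _ in Set.Ico a b, ENNReal.ofReal (gaussianPDFReal 0 1 b) := by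
        rw [setLIntegral_const, Real.volume_Ico, mul_comm, ENNReal.ofReal_mul
          (gaussianPDFReal_nonneg _ _ _)]
    _ ≤ ∫⁻ x in Set.Ico a b, gaussianPDF 0 1 x := by
        apply setLIntegral_mono' measurableSet_Ico
        intro x hx
        unfold gaussianPDF
        apply ENNReal.ofReal_le_ofReal
        unfold gaussianPDFReal
        apply mul_le_mul_of_nonneg_left _ (by positivity)
        apply Real.exp_le_exp.2
        have h1 : x ^ 2 ≤ b ^ 2 := pow_le_pow_left₀ (ha.trans hx.1) hx.2.le 2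
        simp only [sub_zero, NNReal.coe_one, mul_one]
        linarith

lemma exp_lower (y : ℝ) (hy : |y| ≤ 1) :
    (∑ m ∈ Finset.range 6, y ^ m / m.factorial) - |y| ^ 6 * (7 / 4320) ≤ Real.exp y := by
  have h := Real.exp_bound hy (n := 6) (by norm_num)
  have h2 := (abs_le.1 h).1
  norm_num [Nat.factorial] at h2 ⊢
  linarith

lemma gauss_seventh : (1 / 7 : ENNReal) ≤ gaussianReal 0 1 (Set.Ico (2 / 3) (4 / 3)) := by
  have hsplit : Set.Ico (2 / 3 : ℝ) (4 / 3) =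
      Set.Ico (2 / 3 : ℝ) (8 / 9) ∪ (Set.Ico (8 / 9 : ℝ) (10 / 9) ∪ Set.Ico (10 / 9 : ℝ) (4 / 3)) := by
    rw [Set.Ico_union_Ico_eq_Ico (by norm_num) (by norm_num),
      Set.Ico_union_Ico_eq_Ico (by norm_num) (by norm_num)]
  have hd1 : Disjoint (Set.Ico (8 / 9 : ℝ) (10 / 9)) (Set.Ico (10 / 9 : ℝ) (4 / 3)) := by
    rw [Set.disjoint_left]
    intro x hx hx'
    exact absurd hx.2 (not_lt.2 hx'.1)
  have hd2 : Disjoint (Set.Ico (2 / 3 : ℝ) (8 / 9))
      (Set.Ico (8 / 9 : ℝ) (10 / 9) ∪ Set.Ico (10 / 9 : ℝ) (4 / 3)) := by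
    rw [Set.Ico_union_Ico_eq_Ico (by norm_num) (by norm_num), Set.disjoint_left]
    intro x hx hx'
    exact absurd hx.2 (not_lt.2 hx'.1)
  rw [hsplit, measure_union hd2 (measurableSet_Ico.union measurableSet_Ico),
    measure_union hd1 measurableSet_Ico]
  have h1 := gauss_Ico_ge (a := 2 / 3) (b := 8 / 9) (by norm_num)
  have h2 := gauss_Ico_ge (a := 8 / 9) (b := 10 / 9) (by norm_num)
  have h3 := gauss_Ico_ge (a := 10 / 9) (b := 4 / 3) (by norm_num)
  refine le_trans ?_ (add_le_add h1 (add_le_add h2 h3))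
  rw [← ENNReal.ofReal_add (mul_nonneg (by norm_num) (gaussianPDFReal_nonneg _ _ _))
      (mul_nonneg (by norm_num) (gaussianPDFReal_nonneg _ _ _)),
    ← ENNReal.ofReal_add (mul_nonneg (by norm_num) (gaussianPDFReal_nonneg _ _ _))
      (add_nonneg (mul_nonneg (by norm_num) (gaussianPDFReal_nonneg _ _ _))
        (mul_nonneg (by norm_num) (gaussianPDFReal_nonneg _ _ _)))]
  have h4 : (1 / 7 : ENNReal) = ENNReal.ofReal (1 / 7) := by
    rw [ENNReal.ofReal_div_of_pos (by norm_num)]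
    simp
  rw [h4]
  apply ENNReal.ofReal_le_ofReal
  unfold gaussianPDFReal
  simp only [NNReal.coe_one, mul_one, sub_zero]
  have hpi : Real.sqrt (2 * Real.pi) ≤ 2.5067 := by
    rw [Real.sqrt_le_left (by norm_num)]
    have := Real.pi_lt_d4
    norm_num at this ⊢
    linarith
  have hpi0 : 0 < Real.sqrt (2 * Real.pi) := Real.sqrt_pos.2 (by positivity)
  have hinv : (2.5067 : ℝ)⁻¹ ≤ (Real.sqrt (2 * Real.pi))⁻¹ := by
    apply inv_anti₀ hpi0 hpi
  have e1 := exp_lower (-((8 : ℝ) / 9) ^ 2 / 2) (by norm_num [abs_of_neg])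
  have e2 := exp_lower (-((10 : ℝ) / 9) ^ 2 / 2) (by norm_num [abs_of_neg])
  have e3 := exp_lower (-((4 : ℝ) / 3) ^ 2 / 2) (by norm_num [abs_of_neg])
  set E1 := Real.exp (-((8 : ℝ) / 9) ^ 2 / 2)
  set E2 := Real.exp (-((10 : ℝ) / 9) ^ 2 / 2)
  set E3 := Real.exp (-((4 : ℝ) / 3) ^ 2 / 2)
  norm_num [Finset.sum_range_succ, Nat.factorial, abs_of_neg] at e1 e2 e3
  have hsum : (1.6115 : ℝ) ≤ E1 + E2 + E3 := by linarith
  have h5 : (2.5067 : ℝ)⁻¹ * 1.6115 ≤ (Real.sqrt (2 * Real.pi))⁻¹ * (E1 + E2 + E3) := by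
    apply mul_le_mul hinv hsum (by norm_num) (by positivity)
  have h6 : (1 / 7 : ℝ) ≤ 2 / 9 * ((2.5067 : ℝ)⁻¹ * 1.6115) := by norm_num
  have h7 : (8 / 9 - 2 / 3) * ((Real.sqrt (2 * Real.pi))⁻¹ * E1) +
      ((10 / 9 - 8 / 9) * ((Real.sqrt (2 * Real.pi))⁻¹ * E2) +
        (4 / 3 - 10 / 9) * ((Real.sqrt (2 * Real.pi))⁻¹ * E3)) =
      2 / 9 * ((Real.sqrt (2 * Real.pi))⁻¹ * (E1 + E2 + E3)) := by ring
  rw [h7]
  linarith

/-- `τ(d+1) ≤ 7 τ(d)`. -/
theorem kissing_step {d : ℕ} (hd : 1 ≤ d) : kissing (d + 1) ≤ 7 * kissing d := by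
  have h := card_mul_gaussian_le hd (φ := Real.pi / 3) (by positivity)
    (by linarith [Real.pi_pos]) (t := 2 / 3) (by norm_num)
  rw [Real.cos_pi_div_three] at h
  have e : (2 / 3 : ℝ) / (1 / 2) = 4 / 3 := by norm_num
  rw [e] at h
  have h1 : (kissing (d + 1) : ENNReal) * (1 / 7) ≤ kissing d :=
    (mul_le_mul_right gauss_seventh _).trans h
  have h2 : (kissing (d + 1) : ENNReal) ≤ 7 * kissing d := by
    rw [one_div, ← div_eq_mul_inv] at h1
    rw [mul_comm]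
    exact (ENNReal.div_le_iff (by norm_num) (by norm_num)).1 h1
  exact_mod_cast h2

/-- For every angle in `(0, π/2)` the maximal size of a code increases at most by a constant factor
when the dimension increases by one. -/
theorem maxCode_step {φ : ℝ} (h0 : 0 < φ) (hφ : φ < Real.pi / 2) :
    ∃ K : ℝ, 1 ≤ K ∧ ∀ d : ℕ, 1 ≤ d → (maxCode (d + 1) φ : ℝ) ≤ K * maxCode d φ := by
  have hπ : φ ≤ Real.pi := by linarith [Real.pi_pos]
  have hs0 : 0 < Real.cos φ := Real.cos_pos_of_mem_Ioo ⟨by linarith, hφ⟩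
  have hs1 : Real.cos φ < 1 := cos_lt_one h0 hπ
  set P := gaussianReal 0 1 (Set.Ico 1 (1 / Real.cos φ)) with hP
  have hP1 : P ≤ 1 := prob_le_one
  have hP0 : 0 < P := by
    refine lt_of_lt_of_le ?_ (gauss_Ico_ge (a := 1) (b := 1 / Real.cos φ) zero_le_one)
    rw [ENNReal.ofReal_pos]
    apply mul_pos
    · rw [sub_pos]
      exact (one_lt_div hs0).2 hs1
    · exact gaussianPDFReal_pos _ _ _ one_ne_zero
  have hPt : P ≠ ⊤ := (hP1.trans_lt ENNReal.one_lt_top).ne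
  have hPr0 : 0 < P.toReal := ENNReal.toReal_pos hP0.ne' hPt
  have hPr1 : P.toReal ≤ 1 := by
    have := ENNReal.toReal_mono ENNReal.one_ne_top hP1
    simpa using this
  refine ⟨(P.toReal)⁻¹, (one_le_inv₀ hPr0).2 hPr1, fun d hd => ?_⟩
  have h := card_mul_gaussian_le hd h0 hφ (t := 1) one_pos
  have h1 := ENNReal.toReal_mono (ENNReal.natCast_ne_top _) h
  rw [ENNReal.toReal_mul, ENNReal.toReal_natCast, ENNReal.toReal_natCast] at h1
  rw [← hP] at h1
  rw [inv_mul_eq_div, le_div_iff₀ hPr0]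
  exact h1

end Pool.Agent.Helper59.Kiss
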