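import Pool.Agent.Helper59.Kiss.Exponents

open Filter MeasureTheory InnerProductGeometry
open scoped RealInnerProductSpace Topology

namespace Pool.Agent.Helper59.Kiss

lemma puncture_max {φ ψ : ℝ} (h0 : 0 < φ) (h : φ < ψ) (hψ : ψ < Real.pi / 2) :
    ∃ a : ℝ, 0 < a ∧ a < 1 ∧ ∀ m k : ℕ, (k : ℝ) ≤ a * (m + k : ℕ) →
      maxCode (m + k) ψ ≤ 2 * maxCode m φ := by
  obtain ⟨a, ha0, ha1, ha⟩ := puncture_angle h0 h hψ
  refine ⟨a, ha0, ha1, fun m k hk => ?_⟩
  obtain ⟨C, hC, hcard⟩ := exists_maxCode (m + k) (h0.trans h) (by linarith [Real.pi_pos] :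
    ψ ≤ Real.pi)
  rw [← hcard]
  exact ha m k hk C hC

lemma logb_maxCode_le {φ ψ : ℝ} (h0 : 0 < φ) (hπ : φ ≤ Real.pi) {D m : ℕ} (hm : 1 ≤ m)
    (hD : 1 ≤ maxCode D ψ)
    (h : maxCode D ψ ≤ 2 * maxCode m φ) :
    Real.logb 2 (maxCode D ψ) ≤ 1 + m * rate φ m := by
  have hm' : (0 : ℝ) < m := by exact_mod_cast hm
  have h1 : (0 : ℝ) < maxCode D ψ := by exact_mod_cast hD
  have h2 : (0 : ℝ) < maxCode m φ := by exact_mod_cast one_le_maxCode hm h0 hπ
  have h3 : (maxCode D ψ : ℝ) ≤ 2 * maxCode m φ := by exact_mod_cast h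
  have h4 := Real.logb_le_logb_of_le one_lt_two h1 h3
  rw [Real.logb_mul two_ne_zero h2.ne', Real.logb_self_eq_one one_lt_two] at h4
  have h5 : (m : ℝ) * rate φ m = Real.logb 2 (maxCode m φ) := by
    unfold rate
    field_simp
  rw [h5]
  exact h4

theorem upperExp_le {φ ψ : ℝ} (h0 : 0 < φ) (h : φ < ψ) (hψ : ψ < Real.pi / 2) {a : ℝ}
    (ha0 : 0 < a) (ha1 : a < 1)
    (ha : ∀ m k : ℕ, (k : ℝ) ≤ a * (m + k : ℕ) → maxCode (m + k) ψ ≤ 2 * maxCode m φ) :
    upperExp ψ ≤ (1 - a) * upperExp φ := by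
  have hπ : φ ≤ Real.pi := by linarith [Real.pi_pos]
  have hπ' : ψ ≤ Real.pi := by linarith [Real.pi_pos]
  by_contra hcon
  push Not at hcon
  have hc0 : 0 < upperExp φ :=
    (lowerExp_pos h0 (by linarith)).trans_le (lowerExp_le_upperExp h0 hπ)
  set c := upperExp φ with hc
  set b := upperExp ψ with hb
  -- choose `ε`
  obtain ⟨ε, hε0, hε⟩ : ∃ ε : ℝ, 0 < ε ∧ (1 - a) * (c + ε) + 2 * ε < b := by
    refine ⟨(b - (1 - a) * c) / 6, by linarith, ?_⟩
    nlinarith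
  have h1 := eventually_rate_lt h0 hπ (show upperExp φ < c + ε by linarith)
  rw [eventually_atTop] at h1
  obtain ⟨M, hM⟩ := h1
  have h2 : ∀ᶠ D : ℕ in atTop, rate ψ D < (1 - a) * (c + ε) + 2 * ε := by
    have e1 : ∀ᶠ D : ℕ in atTop, (1 + (c + ε)) / (D : ℝ) < ε :=
      (tendsto_const_div_atTop_nhds_zero_nat _).eventually (gt_mem_nhds hε0)
    have e2 : ∀ᶠ D : ℕ in atTop, (M : ℝ) + 1 ≤ (1 - a) * D := by
      have : Tendsto (fun D : ℕ => (1 - a) * (D : ℝ)) atTop atTop :=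
        tendsto_natCast_atTop_atTop.const_mul_atTop (by linarith)
      exact this.eventually_ge_atTop _
    filter_upwards [e1, e2, eventually_ge_atTop 1] with D hD1 hD2 hD3
    have hD' : (0 : ℝ) < D := by exact_mod_cast hD3
    set k := ⌊a * D⌋₊ with hk
    have hkle : (k : ℝ) ≤ a * D := Nat.floor_le (by positivity)
    have hklt : a * D < k + 1 := Nat.lt_floor_add_one _
    have hkD : k ≤ D := by
      have : (k : ℝ) ≤ D := hkle.trans (by nlinarith)
      exact_mod_cast this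
    obtain ⟨m, hm⟩ := Nat.exists_eq_add_of_le' hkD
    have hmD : (m : ℝ) = D - k := by
      rw [hm]; push_cast; ring
    have hmM : M ≤ m := by
      have : (M : ℝ) ≤ m := by rw [hmD]; nlinarith
      exact_mod_cast this
    have hm1 : 1 ≤ m := by
      have : (0 : ℝ) < m := by
        rw [hmD]
        have : (0 : ℝ) ≤ M := Nat.cast_nonneg _
        nlinarith
      exact_mod_cast this
    have h3 := ha m k (by rw [← hm]; exact hkle)
    rw [← hm] at h3
    have h4 := logb_maxCode_le h0 hπ hm1 (one_le_maxCode hD3 (h0.trans h) hπ') h3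
    have h5 := hM m hmM
    have h6 : (m : ℝ) ≤ (1 - a) * D + 1 := by rw [hmD]; linarith
    have h7 : (m : ℝ) * rate φ m ≤ ((1 - a) * D + 1) * (c + ε) := by
      apply mul_le_mul h6 h5.le (rate_nonneg φ m)
      nlinarith
    unfold rate
    rw [div_lt_iff₀ hD']
    rw [div_lt_iff₀ hD'] at hD1
    nlinarith
  have h3 : upperExp ψ ≤ (1 - a) * (c + ε) + 2 * ε := by
    apply limsup_le_of_le (isBoundedUnder_ge ψ).isCoboundedUnder_le
    exact h2.mono fun D hD => hD.le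
  linarith

theorem lowerExp_le {φ ψ : ℝ} (h0 : 0 < φ) (h : φ < ψ) (hψ : ψ < Real.pi / 2) {a : ℝ}
    (ha0 : 0 < a) (ha1 : a < 1)
    (ha : ∀ m k : ℕ, (k : ℝ) ≤ a * (m + k : ℕ) → maxCode (m + k) ψ ≤ 2 * maxCode m φ) :
    lowerExp ψ ≤ (1 - a) * lowerExp φ := by
  have hπ : φ ≤ Real.pi := by linarith [Real.pi_pos]
  have hπ' : ψ ≤ Real.pi := by linarith [Real.pi_pos]
  by_contra hcon
  push Not at hcon
  have hc0 : 0 < lowerExp φ := lowerExp_pos h0 (by linarith)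
  set c := lowerExp φ with hc
  set b := lowerExp ψ with hb
  obtain ⟨ε, hε0, hε⟩ : ∃ ε : ℝ, 0 < ε ∧ (1 - a) * (c + ε) + 2 * ε < b := by
    refine ⟨(b - (1 - a) * c) / 6, by linarith, ?_⟩
    nlinarith
  have h1 := eventually_lt_rate hε
  have h2 : ∃ᶠ m in atTop, rate φ m < c + ε :=
    frequently_rate_lt h0 hπ (by linarith)
  rw [eventually_atTop] at h1
  obtain ⟨M, hM⟩ := h1
  have e1 : ∀ᶠ D : ℕ in atTop, (1 + (c + ε)) / (D : ℝ) < ε :=
    (tendsto_const_div_atTop_nhds_zero_nat _).eventually (gt_mem_nhds hε0)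
  rw [eventually_atTop] at e1
  obtain ⟨M', hM'⟩ := e1
  obtain ⟨m, hm, hrate⟩ := (frequently_atTop.1 h2) (M + M' + 1)
  have h1a : 0 < 1 - a := by linarith
  set D := ⌊(m : ℝ) / (1 - a)⌋₊ with hD
  have hDle : (D : ℝ) ≤ m / (1 - a) := Nat.floor_le (by positivity)
  have hDlt : (m : ℝ) / (1 - a) < D + 1 := Nat.lt_floor_add_one _
  rw [le_div_iff₀ h1a] at hDle
  rw [div_lt_iff₀ h1a] at hDlt
  have hmD : m ≤ D := by
    apply Nat.le_floor
    rw [le_div_iff₀ h1a]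
    have : (0 : ℝ) ≤ m := Nat.cast_nonneg _
    nlinarith
  obtain ⟨k, hk⟩ := Nat.exists_eq_add_of_le hmD
  have hkD : (k : ℝ) = D - m := by rw [hk]; push_cast; ring
  have h3 := ha m k (by rw [← hk, hkD]; linarith)
  rw [← hk] at h3
  have hm1 : 1 ≤ m := by omega
  have hD1 : 1 ≤ D := by omega
  have hD' : (0 : ℝ) < D := by exact_mod_cast hD1
  have h4 := logb_maxCode_le h0 hπ hm1 (one_le_maxCode hD1 (h0.trans h) hπ') h3
  have h5 := hM D (by omega)
  have h6 := hM' D (by omega)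
  have h7 : (m : ℝ) * rate φ m ≤ ((D + 1) * (1 - a)) * (c + ε) := by
    apply mul_le_mul hDlt.le hrate.le (rate_nonneg φ m)
    positivity
  have h8 : (D : ℝ) * rate ψ D = Real.logb 2 (maxCode D ψ) := by
    unfold rate
    field_simp
  rw [div_lt_iff₀ hD'] at h6
  have h9 : (D : ℝ) * ((1 - a) * (c + ε) + 2 * ε) < D * rate ψ D :=
    mul_lt_mul_of_pos_left h5 hD'
  nlinarith

/-- The exponents are strictly decreasing functions of the angle. -/
theorem strict_angle {φ ψ : ℝ} (h0 : 0 < φ) (h : φ < ψ) (hψ : ψ < Real.pi / 2) :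
    upperExp ψ < upperExp φ ∧ lowerExp ψ < lowerExp φ := by
  have hπ : φ ≤ Real.pi := by linarith [Real.pi_pos]
  obtain ⟨a, ha0, ha1, ha⟩ := puncture_max h0 h hψ
  have hc0 : 0 < lowerExp φ := lowerExp_pos h0 (by linarith)
  have hc1 : 0 < upperExp φ := hc0.trans_le (lowerExp_le_upperExp h0 hπ)
  constructor
  · have := upperExp_le h0 h hψ ha0 ha1 ha
    nlinarith
  · have := lowerExp_le h0 h hψ ha0 ha1 ha
    nlinarith

end Pool.Agent.Helper59.Kiss
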