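import Pool.Agent.Helper59.Kiss.Strict

open Pool.Agent.Helper59.Kiss

namespace Pool.Agent.Helper59.Kiss.StrictAngleKeep

/-- **The exponents `c_-(φ)` and `c_+(φ)` of spherical codes of angle `φ` are strictly decreasing
functions of `φ` on `(0, π/2)`.**  In particular the exponents `c_±` of the kissing numbers
(`φ = π/3`) are strictly larger than the exponents for every angle larger than `π/3` and strictly
smaller than the exponents for every angle smaller than `π/3`. -/
theorem result {φ ψ : ℝ} (h0 : 0 < φ) (h : φ < ψ) (hψ : ψ < Real.pi / 2) :
    upperExp ψ < upperExp φ ∧ lowerExp ψ < lowerExp φ :=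
  strict_angle h0 h hψ

end Pool.Agent.Helper59.Kiss.StrictAngleKeep
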