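import Pool.Agent.Helper59.Kiss.Step

open Filter MeasureTheory InnerProductGeometry ProbabilityTheory
open scoped RealInnerProductSpace Topology

namespace Pool.Agent.Helper59.Kiss

lemma rate_mul {φ : ℝ} {d : ℕ} (hd : 1 ≤ d) : (d : ℝ) * rate φ d = Real.logb 2 (maxCode d φ) := by
  have : (0 : ℝ) < d := by exact_mod_cast hd
  unfold rate
  field_simp

/-- The rate changes slowly. -/
lemma rate_step {φ : ℝ} (h0 : 0 < φ) (hφ : φ < Real.pi / 2) :
    ∃ M : ℝ, 0 < M ∧ ∀ d : ℕ, 1 ≤ d → |rate φ (d + 1) - rate φ d| ≤ M / d := by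
  have hπ : φ ≤ Real.pi := by linarith [Real.pi_pos]
  obtain ⟨K, hK1, hK⟩ := maxCode_step h0 hφ
  have hκ : 0 ≤ Real.logb 2 K := Real.logb_nonneg one_lt_two hK1
  have hB := rateBound_nonneg φ
  refine ⟨Real.logb 2 K + rateBound φ + 1, by linarith, fun d hd => ?_⟩
  have hd' : (0 : ℝ) < d := by exact_mod_cast hd
  have e1 := rate_mul (φ := φ) hd
  have e2 := rate_mul (φ := φ) (show 1 ≤ d + 1 by omega)
  have hm1 : (0 : ℝ) < maxCode d φ := by exact_mod_cast one_le_maxCode hd h0 hπ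
  have hm2 : (maxCode d φ : ℝ) ≤ maxCode (d + 1) φ := by
    exact_mod_cast maxCode_mono_dim (Nat.le_succ d) h0 hπ
  have h1 := Real.logb_le_logb_of_le one_lt_two hm1 hm2
  have h2 := Real.logb_le_logb_of_le one_lt_two (hm1.trans_le hm2) (hK d hd)
  rw [Real.logb_mul (by positivity) hm1.ne'] at h2
  rw [← e1, ← e2] at h1 h2
  push_cast at h1 h2
  have h3 := rate_nonneg φ d
  have h4 := rate_le h0 hπ d
  have h5 := rate_nonneg φ (d + 1)
  have h6 := rate_le h0 hπ (d + 1)
  rw [abs_le]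
  constructor
  · rw [neg_le, neg_sub, le_div_iff₀ hd']
    nlinarith
  · rw [le_div_iff₀ hd']
    nlinarith

lemma rate_window {φ M : ℝ} (hM0 : 0 < M)
    (hM : ∀ d : ℕ, 1 ≤ d → |rate φ (d + 1) - rate φ d| ≤ M / d) (d : ℕ) (hd : 1 ≤ d) (k : ℕ) :
    |rate φ (d + k) - rate φ d| ≤ M * k / d := by
  have hd' : (0 : ℝ) < d := by exact_mod_cast hd
  induction k with
  | zero => simp
  | succ k ih =>
    have h1 := hM (d + k) (by omega)
    have h2 : M / ((d + k : ℕ) : ℝ) ≤ M / d := by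
      apply div_le_div_of_nonneg_left hM0.le hd'
      push_cast
      linarith [(Nat.cast_nonneg k : (0 : ℝ) ≤ k)]
    have h3 : |rate φ (d + (k + 1)) - rate φ d| ≤
        |rate φ (d + k + 1) - rate φ (d + k)| + |rate φ (d + k) - rate φ d| := by
      rw [← add_assoc]
      calc |rate φ (d + k + 1) - rate φ d|
          = |(rate φ (d + k + 1) - rate φ (d + k)) + (rate φ (d + k) - rate φ d)| := by
            congr 1; ring
        _ ≤ _ := abs_add_le _ _
    have h4 : M * ((k + 1 : ℕ) : ℝ) / d = M / d + M * k / d := by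
      push_cast
      field_simp
      ring
    rw [h4]
    linarith

/-- Every value between `c_-` and `c_+` is approached on infinitely many long windows. -/
theorem windows {φ : ℝ} (h0 : 0 < φ) (hφ : φ < Real.pi / 2) {c : ℝ}
    (hc : c ∈ Set.Icc (lowerExp φ) (upperExp φ)) {ε : ℝ} (hε : 0 < ε) :
    ∃ δ : ℝ, 0 < δ ∧ ∀ N : ℕ, ∃ d ≥ N, ∀ d' : ℕ, d ≤ d' → (d' : ℝ) ≤ (1 + δ) * d →
      |rate φ d' - c| < ε := by
  have hπ : φ ≤ Real.pi := by linarith [Real.pi_pos]
  obtain ⟨M, hM0, hM⟩ := rate_step h0 hφ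
  refine ⟨ε / (4 * M), by positivity, fun N => ?_⟩
  -- large starting point
  obtain ⟨N₀, hN₀⟩ := exists_nat_gt (4 * M / ε)
  have hstep : ∀ d : ℕ, N₀ ≤ d → 1 ≤ d → |rate φ (d + 1) - rate φ d| ≤ ε / 4 := by
    intro d hd hd1
    have hd' : (0 : ℝ) < d := by exact_mod_cast hd1
    refine (hM d hd1).trans ?_
    rw [div_le_iff₀ hd']
    have h1 : 4 * M / ε < d := hN₀.trans_le (by exact_mod_cast hd)
    rw [div_lt_iff₀ hε] at h1
    linarith
  have hlow : ∃ᶠ d in atTop, rate φ d < c + ε / 4 :=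
    frequently_rate_lt h0 hπ (by linarith [hc.1])
  have hup : ∃ᶠ d in atTop, c - ε / 4 < rate φ d :=
    frequently_lt_rate (by linarith [hc.2])
  obtain ⟨d₁, hd₁, hrate₁⟩ := (frequently_atTop.1 hlow) (N + N₀ + 1)
  have hmid : ∃ d ≥ N + N₀ + 1, |rate φ d - c| ≤ ε / 4 := by
    by_cases h1 : c - ε / 4 < rate φ d₁
    · refine ⟨d₁, hd₁, ?_⟩
      rw [abs_le]
      constructor <;> linarith
    · push Not at h1
      classical
      have hex : ∃ k : ℕ, c - ε / 4 < rate φ (d₁ + k) := by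
        obtain ⟨d₂, hd₂, hrate₂⟩ := (frequently_atTop.1 hup) d₁
        obtain ⟨k, rfl⟩ := Nat.exists_eq_add_of_le hd₂
        exact ⟨k, hrate₂⟩
      set k := Nat.find hex with hk
      have hk1 : c - ε / 4 < rate φ (d₁ + k) := Nat.find_spec hex
      have hk0 : k ≠ 0 := by
        intro h
        rw [h, add_zero] at hk1
        linarith
      obtain ⟨j, hj⟩ := Nat.exists_eq_succ_of_ne_zero hk0
      have hj1 : ¬ c - ε / 4 < rate φ (d₁ + j) := Nat.find_min hex (by omega)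
      push Not at hj1
      refine ⟨d₁ + k, by omega, ?_⟩
      have h2 := hstep (d₁ + j) (by omega) (by omega)
      have h3 : d₁ + k = d₁ + j + 1 := by omega
      rw [h3] at hk1 ⊢
      rw [abs_le] at h2 ⊢
      constructor <;> linarith [h2.1, h2.2]
  obtain ⟨d, hd, hdc⟩ := hmid
  refine ⟨d, by omega, fun d' hd1 hd2 => ?_⟩
  obtain ⟨k, rfl⟩ := Nat.exists_eq_add_of_le hd1
  have hd' : (0 : ℝ) < d := by exact_mod_cast (by omega : 0 < d)
  have h1 := rate_window hM0 hM d (by omega) k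
  have h2 : M * k / d ≤ ε / 4 := by
    rw [div_le_iff₀ hd']
    push_cast at hd2
    have h3 : (k : ℝ) ≤ ε / (4 * M) * d := by linarith
    calc M * (k : ℝ) ≤ M * (ε / (4 * M) * d) := mul_le_mul_of_nonneg_left h3 hM0.le
      _ = ε / 4 * d := by field_simp
  have h3 : |rate φ (d + k) - c| ≤ |rate φ (d + k) - rate φ d| + |rate φ d - c| := by
    calc |rate φ (d + k) - c| = |(rate φ (d + k) - rate φ d) + (rate φ d - c)| := by
          congr 1; ring
      _ ≤ _ := abs_add_le _ _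
  linarith

end Pool.Agent.Helper59.Kiss
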